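import Mathlib

/-! From sums with the weights `μ` and `Λ` and additive characters, with a power saving and uniform in
the additive character, to arithmetic progressions and to sums over primes. -/

set_option autoImplicit false

open Finset

namespace Pool.Agent.Q263.PS

/-- the additive character -/
noncomputable def ec (α : ℝ) (n : ℕ) : ℂ := Complex.exp (2 * Real.pi * Complex.I * (α * n))

lemma norm_ec (α : ℝ) (n : ℕ) : ‖ec α n‖ = 1 := by
  unfold ec
  rw [show 2 * Real.pi * Complex.I * (α * n) = ((2 * Real.pi * (α * n) : ℝ) : ℂ) * Complex.I by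
    push_cast; ring]
  exact Complex.norm_exp_ofReal_mul_I _

lemma ec_add (α β : ℝ) (n : ℕ) : ec (α + β) n = ec α n * ec β n := by
  unfold ec
  rw [← Complex.exp_add]
  congr 1
  push_cast; ring

/-- detecting a residue class -/
lemma class_eq {q : ℕ} (hq : 1 ≤ q) (a n : ℕ) :
    (if n ≡ a [MOD q] then (1:ℂ) else 0) =
      (1 / (q:ℂ)) * ∑ j ∈ range q, ec ((j:ℝ) / q) ((q - 1) * a) * ec ((j:ℝ) / q) n := by
  have hq0 : (q:ℂ) ≠ 0 := by exact_mod_cast (by omega : q ≠ 0)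
  set ζ : ℂ := Complex.exp (2 * Real.pi * Complex.I / q) with hζ
  have hprim : IsPrimitiveRoot ζ q := Complex.isPrimitiveRoot_exp q (by omega)
  have hpow : ∀ j m : ℕ, ec ((j:ℝ) / q) m = (ζ ^ m) ^ j := by
    intro j m
    unfold ec
    rw [← pow_mul, hζ, ← Complex.exp_nat_mul]
    congr 1
    push_cast
    field_simp
  have hterm : ∀ j ∈ range q, ec ((j:ℝ) / q) ((q - 1) * a) * ec ((j:ℝ) / q) n =
      (ζ ^ ((q - 1) * a + n)) ^ j := by
    intro j _
    rw [hpow, hpow, ← mul_pow, ← pow_add]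
  rw [sum_congr rfl hterm]
  have hiff : n ≡ a [MOD q] ↔ q ∣ (q - 1) * a + n := by
    have h1 : (q - 1) * a + a = q * a := by
      obtain ⟨r, rfl⟩ : ∃ r, q = r + 1 := ⟨q - 1, by omega⟩
      simp only [Nat.add_sub_cancel]; ring
    constructor
    · intro h
      have h2 : (q - 1) * a + n ≡ (q - 1) * a + a [MOD q] := Nat.ModEq.add_left _ h
      rw [h1] at h2
      have h3 : (q - 1) * a + n ≡ 0 [MOD q] := h2.trans ((Nat.modEq_zero_iff_dvd).2 (Dvd.intro _ rfl))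
      exact (Nat.modEq_zero_iff_dvd).1 h3
    · intro h
      have h3 : (q - 1) * a + n ≡ (q - 1) * a + a [MOD q] := by
        rw [h1]
        exact ((Nat.modEq_zero_iff_dvd).2 h).trans ((Nat.modEq_zero_iff_dvd).2 (Dvd.intro _ rfl)).symm
      exact Nat.ModEq.add_left_cancel' _ h3
  by_cases hd : q ∣ (q - 1) * a + n
  · rw [if_pos (hiff.2 hd)]
    have h1 : ζ ^ ((q - 1) * a + n) = 1 := (hprim.pow_eq_one_iff_dvd _).2 hd
    rw [h1]
    simp only [one_pow, sum_const, card_range, nsmul_eq_mul, mul_one]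
    field_simp
  · rw [if_neg (fun h => hd (hiff.1 h))]
    have h1 : ζ ^ ((q - 1) * a + n) ≠ 1 := fun h => hd ((hprim.pow_eq_one_iff_dvd _).1 h)
    have h2 : (ζ ^ ((q - 1) * a + n)) ^ q = 1 := by
      rw [← pow_mul, mul_comm, pow_mul, hprim.pow_eq_one, one_pow]
    have h3 := mul_geom_sum (ζ ^ ((q - 1) * a + n)) q
    rw [h2, sub_self] at h3
    rcases mul_eq_zero.1 h3 with h4 | h4
    · exact absurd (sub_eq_zero.1 h4) h1
    · rw [h4, mul_zero]

/-- from all additive characters to a residue class -/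
lemma class_bound {q : ℕ} (hq : 1 ≤ q) (a : ℕ) (S : Finset ℕ) (v : ℕ → ℂ) {M : ℝ}
    (h : ∀ α : ℝ, ‖∑ n ∈ S, ec α n * v n‖ ≤ M) (α : ℝ) :
    ‖∑ n ∈ S.filter (fun n => n ≡ a [MOD q]), ec α n * v n‖ ≤ M := by
  have hq0 : (0:ℝ) < q := by exact_mod_cast hq
  have e1 : ∑ n ∈ S.filter (fun n => n ≡ a [MOD q]), ec α n * v n =
      (1 / (q:ℂ)) * ∑ j ∈ range q, ec ((j:ℝ) / q) ((q - 1) * a) * ∑ n ∈ S, ec (α + (j:ℝ) / q) n * v n := by
    rw [sum_filter]
    have : ∀ n ∈ S, (if n ≡ a [MOD q] then ec α n * v n else 0) =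
        ∑ j ∈ range q, (1 / (q:ℂ)) * (ec ((j:ℝ) / q) ((q - 1) * a) * (ec (α + (j:ℝ) / q) n * v n)) := by
      intro n _
      have h2 := class_eq hq a n
      have h3 : (if n ≡ a [MOD q] then ec α n * v n else 0) =
          (if n ≡ a [MOD q] then (1:ℂ) else 0) * (ec α n * v n) := by
        split_ifs <;> simp
      rw [h3, h2, mul_sum, sum_mul]
      apply sum_congr rfl
      intro j _
      rw [ec_add]
      ring
    rw [sum_congr rfl this, sum_comm, mul_sum]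
    apply sum_congr rfl
    intro j _
    rw [mul_sum, mul_sum]
  rw [e1, norm_mul]
  have h2 : ‖∑ j ∈ range q, ec ((j:ℝ) / q) ((q - 1) * a) * ∑ n ∈ S, ec (α + (j:ℝ) / q) n * v n‖ ≤ q * M := by
    refine (norm_sum_le _ _).trans ?_
    calc _ ≤ ∑ _j ∈ range q, M := by
          apply sum_le_sum
          intro j _
          rw [norm_mul, norm_ec, one_mul]
          exact h _
      _ = _ := by rw [sum_const, card_range, nsmul_eq_mul]
  have h3 : ‖(1 / (q:ℂ))‖ = 1 / q := by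
    rw [norm_div, norm_one, Complex.norm_natCast]
  rw [h3]
  calc _ ≤ 1 / (q:ℝ) * (q * M) := mul_le_mul_of_nonneg_left h2 (by positivity)
    _ = M := by field_simp

lemma abel_eq (g : ℕ → ℂ) (w : ℕ → ℝ) (K : ℕ) :
    ∑ n ∈ Icc 1 (K + 1), (w n : ℂ) * g n =
      (w (K + 1) : ℂ) * ∑ n ∈ Icc 1 (K + 1), g n +
        ∑ m ∈ Icc 1 K, ((w m - w (m + 1) : ℝ) : ℂ) * ∑ n ∈ Icc 1 m, g n := by
  induction K with
  | zero => simp
  | succ K ih =>
    rw [sum_Icc_succ_top (by omega), ih,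
      sum_Icc_succ_top (by omega : 1 ≤ K + 1 + 1) g,
      sum_Icc_succ_top (by omega : 1 ≤ K + 1)
        (fun m => ((w m - w (m + 1) : ℝ) : ℂ) * ∑ n ∈ Icc 1 m, g n)]
    push_cast
    ring

/-- Abel's inequality for an antitone nonnegative weight -/
lemma abel_le {g : ℕ → ℂ} {w : ℕ → ℝ} (hw : ∀ n, 1 ≤ n → w (n + 1) ≤ w n)
    (hw0 : ∀ n, 1 ≤ n → 0 ≤ w n) {M : ℝ} {N : ℕ} (hN : 1 ≤ N)
    (h : ∀ x, 1 ≤ x → x ≤ N → ‖∑ n ∈ Icc 1 x, g n‖ ≤ M) :
    ‖∑ n ∈ Icc 1 N, (w n : ℂ) * g n‖ ≤ w 1 * M := by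
  obtain ⟨K, rfl⟩ : ∃ K, N = K + 1 := ⟨N - 1, by omega⟩
  rw [abel_eq]
  refine (norm_add_le _ _).trans ?_
  have h1 : ‖(w (K + 1) : ℂ) * ∑ n ∈ Icc 1 (K + 1), g n‖ ≤ w (K + 1) * M := by
    rw [norm_mul, Complex.norm_real, Real.norm_eq_abs, abs_of_nonneg (hw0 _ (by omega))]
    exact mul_le_mul_of_nonneg_left (h _ (by omega) le_rfl) (hw0 _ (by omega))
  have h2 : ‖∑ m ∈ Icc 1 K, ((w m - w (m + 1) : ℝ) : ℂ) * ∑ n ∈ Icc 1 m, g n‖ ≤
      ∑ m ∈ Icc 1 K, (w m - w (m + 1)) * M := by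
    refine (norm_sum_le _ _).trans ?_
    apply sum_le_sum
    intro m hm
    rw [mem_Icc] at hm
    have h3 := hw m hm.1
    rw [norm_mul, Complex.norm_real, Real.norm_eq_abs, abs_of_nonneg (by linarith)]
    exact mul_le_mul_of_nonneg_left (h _ hm.1 (by omega)) (by linarith)
  have h3 : ∀ K : ℕ, ∑ m ∈ Icc 1 K, (w m - w (m + 1)) = w 1 - w (K + 1) := by
    intro K
    induction K with
    | zero => simp
    | succ K ih => rw [sum_Icc_succ_top (by omega), ih]; ring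
  rw [← sum_mul, h3] at h2
  calc _ ≤ w (K + 1) * M + (w 1 - w (K + 1)) * M := add_le_add h1 h2
    _ = _ := by ring

/-- The general theorem: progressions and primes. -/
theorem main {F : ℕ → ℝ} {δ C B : ℝ} (hδ : 0 < δ) (hB : ∀ n : ℕ, 1 ≤ n → |F n| ≤ B * √(n:ℝ))
    (h : ∀ (α : ℝ) (N : ℕ), 1 ≤ N →
      ‖∑ n ∈ Icc 1 N, ((ArithmeticFunction.moebius n : ℤ) : ℂ) * Complex.exp (2 * Real.pi * Complex.I * (α * n)) *
        ((F n : ℝ) : ℂ)‖ ≤ C * (N:ℝ) ^ (5/4 - δ) ∧
      ‖∑ n ∈ Icc 1 N, ((ArithmeticFunction.vonMangoldt n : ℝ) : ℂ) * Complex.exp (2 * Real.pi * Complex.I * (α * n)) *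
        ((F n : ℝ) : ℂ)‖ ≤ C * (N:ℝ) ^ (5/4 - δ)) :
    ∃ δ' : ℝ, 0 < δ' ∧ ∃ C' : ℝ, ∀ N : ℕ, 1 ≤ N → ∀ (α : ℝ) (q a : ℕ), 1 ≤ q →
      ‖∑ n ∈ (Icc 1 N).filter (fun n => n ≡ a [MOD q]), ((ArithmeticFunction.moebius n : ℤ) : ℂ) *
        Complex.exp (2 * Real.pi * Complex.I * (α * n)) * ((F n : ℝ) : ℂ)‖ ≤ C' * (N:ℝ) ^ (5/4 - δ') ∧
      ‖∑ n ∈ (Icc 1 N).filter (fun n => n ≡ a [MOD q]), ((ArithmeticFunction.vonMangoldt n : ℝ) : ℂ) *
        Complex.exp (2 * Real.pi * Complex.I * (α * n)) * ((F n : ℝ) : ℂ)‖ ≤ C' * (N:ℝ) ^ (5/4 - δ') ∧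
      ‖∑ p ∈ ((Icc 1 N).filter Nat.Prime).filter (fun n => n ≡ a [MOD q]),
        Complex.exp (2 * Real.pi * Complex.I * (α * p)) * ((F p : ℝ) : ℂ)‖ ≤ C' * (N:ℝ) ^ (5/4 - δ') := by
  have hB0 : 0 ≤ B := by
    have := hB 1 le_rfl
    rw [Nat.cast_one, Real.sqrt_one, mul_one] at this
    exact (abs_nonneg _).trans this
  have hC0 : 0 ≤ C := by
    have := (h 0 1 le_rfl).1
    rw [Nat.cast_one, Real.one_rpow, mul_one] at this
    exact (norm_nonneg _).trans this
  -- logarithm against a small power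
  have hlog : ∀ x : ℝ, 1 ≤ x → Real.log x ≤ 16 * x ^ (1/16:ℝ) := by
    intro x hx
    have h1 := Real.log_le_rpow_div (by linarith : (0:ℝ) ≤ x) (by norm_num : (0:ℝ) < 1/16)
    linarith
  set δ' := min δ (1/8) with hδ'
  have hδ'1 : δ' ≤ δ := min_le_left _ _
  have hδ'2 : δ' ≤ 1/8 := min_le_right _ _
  have hδ'0 : 0 < δ' := lt_min hδ (by norm_num)
  have hpow : ∀ N : ℕ, 1 ≤ N → (N:ℝ) ^ (5/4 - δ) ≤ (N:ℝ) ^ (5/4 - δ') := by
    intro N hN
    exact Real.rpow_le_rpow_of_exponent_le (by exact_mod_cast hN) (by linarith)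
  -- the sum over primes with logarithms
  set v : ℕ → ℂ := fun n => if n.Prime then ((Real.log n : ℝ) : ℂ) * ((F n : ℝ) : ℂ) else 0 with hv
  set M1 : ℝ := C + 512 * B with hM1
  have hM10 : 0 ≤ M1 := by positivity
  have hprime : ∀ (α : ℝ) (x : ℕ), 1 ≤ x → ‖∑ n ∈ Icc 1 x, ec α n * v n‖ ≤ M1 * (x:ℝ) ^ (5/4 - δ') := by
    intro α x hx
    have hx1 : (1:ℝ) ≤ x := by exact_mod_cast hx
    have hx0 : (0:ℝ) < x := by linarith
    have e1 : ∑ n ∈ Icc 1 x, ec α n * v n =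
        ∑ n ∈ Icc 1 x, ((ArithmeticFunction.vonMangoldt n : ℝ) : ℂ) * Complex.exp (2 * Real.pi * Complex.I * (α * n)) *
          ((F n : ℝ) : ℂ) -
        ∑ n ∈ (Icc 1 x).filter (fun n => ¬ n.Prime), ((ArithmeticFunction.vonMangoldt n : ℝ) : ℂ) * ec α n *
          ((F n : ℝ) : ℂ) := by
      rw [sum_filter, ← sum_sub_distrib]
      apply sum_congr rfl
      intro n _
      simp only [hv]
      by_cases hp : n.Prime
      · rw [if_pos hp, if_neg (not_not.2 hp), ArithmeticFunction.vonMangoldt_apply_prime hp]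
        unfold ec
        ring
      · rw [if_neg hp, if_pos hp]
        unfold ec
        ring
    rw [e1]
    refine (norm_sub_le _ _).trans ?_
    have h1 := ((h α x hx).2).trans (mul_le_mul_of_nonneg_left (hpow x hx) hC0)
    have h2 : ‖∑ n ∈ (Icc 1 x).filter (fun n => ¬ n.Prime), ((ArithmeticFunction.vonMangoldt n : ℝ) : ℂ) * ec α n *
          ((F n : ℝ) : ℂ)‖ ≤ (∑ n ∈ (Icc 1 x).filter (fun n => ¬ n.Prime), ArithmeticFunction.vonMangoldt n) * (B * √(x:ℝ)) := by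
      refine (norm_sum_le _ _).trans ?_
      rw [sum_mul]
      apply sum_le_sum
      intro n hn
      rw [mem_filter, mem_Icc] at hn
      rw [norm_mul, norm_mul, norm_ec, mul_one, Complex.norm_real, Complex.norm_real, Real.norm_eq_abs,
        Real.norm_eq_abs, abs_of_nonneg ArithmeticFunction.vonMangoldt_nonneg]
      apply mul_le_mul_of_nonneg_left _ ArithmeticFunction.vonMangoldt_nonneg
      refine (hB n hn.1.1).trans ?_
      apply mul_le_mul_of_nonneg_left _ hB0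
      exact Real.sqrt_le_sqrt (by exact_mod_cast hn.1.2)
    have h3 : ∑ n ∈ (Icc 1 x).filter (fun n => ¬ n.Prime), ArithmeticFunction.vonMangoldt n ≤
        2 * √(x:ℝ) * Real.log x := by
      have h4 := Chebyshev.psi_sub_theta_le hx1
      rw [Chebyshev.psi_sub_theta_eq_sum_not_prime, Nat.floor_natCast] at h4
      have e3 : Ioc 0 x = Icc 1 x := by ext n; simp only [mem_Ioc, mem_Icc]; omega
      rw [e3] at h4
      exact h4
    have h4 : (∑ n ∈ (Icc 1 x).filter (fun n => ¬ n.Prime), ArithmeticFunction.vonMangoldt n) * (B * √(x:ℝ)) ≤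
        512 * B * (x:ℝ) ^ (5/4 - δ') := by
      calc _ ≤ 2 * √(x:ℝ) * Real.log x * (B * √(x:ℝ)) :=
            mul_le_mul_of_nonneg_right h3 (by positivity)
        _ = 2 * B * (√(x:ℝ) * √(x:ℝ)) * Real.log x := by ring
        _ = 2 * B * x * Real.log x := by rw [Real.mul_self_sqrt hx0.le]
        _ ≤ 2 * B * x * (16 * (x:ℝ) ^ (1/16:ℝ)) :=
            mul_le_mul_of_nonneg_left (hlog x hx1) (by positivity)
        _ = 32 * B * ((x:ℝ) ^ (1:ℝ) * (x:ℝ) ^ (1/16:ℝ)) := by rw [Real.rpow_one]; ring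
        _ = 32 * B * (x:ℝ) ^ (1 + 1/16:ℝ) := by rw [Real.rpow_add hx0]
        _ ≤ 32 * B * (x:ℝ) ^ (5/4 - δ') := by
            apply mul_le_mul_of_nonneg_left _ (by positivity)
            exact Real.rpow_le_rpow_of_exponent_le hx1 (by linarith)
        _ ≤ _ := by
            apply mul_le_mul_of_nonneg_right _ (by positivity)
            linarith
    calc _ ≤ C * (x:ℝ) ^ (5/4 - δ') + 512 * B * (x:ℝ) ^ (5/4 - δ') := add_le_add h1 (h2.trans h4)
      _ = _ := by rw [hM1]; ring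
  set L : ℝ := 1 / Real.log 2 with hL
  have hl2 : 0 < Real.log 2 := Real.log_pos (by norm_num)
  have hL0 : 0 < L := by positivity
  -- removing the logarithm
  set w : ℕ → ℝ := fun n => 1 / Real.log (max (n:ℝ) 2) with hw
  have hwpos : ∀ n : ℕ, 0 < Real.log (max (n:ℝ) 2) := by
    intro n
    exact Real.log_pos (lt_of_lt_of_le (by norm_num) (le_max_right _ _))
  have hw1 : w 1 = L := by
    simp only [hw, hL, Nat.cast_one]
    rw [max_eq_right (by norm_num)]
  have hwanti : ∀ n : ℕ, 1 ≤ n → w (n + 1) ≤ w n := by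
    intro n _
    simp only [hw]
    apply one_div_le_one_div_of_le (hwpos n)
    apply Real.log_le_log (lt_of_lt_of_le (by norm_num) (le_max_right _ _))
    apply max_le_max _ le_rfl
    push_cast; linarith
  have hsum : ∀ (α : ℝ) (N : ℕ), 1 ≤ N →
      ‖∑ n ∈ (Icc 1 N).filter Nat.Prime, ec α n * ((F n : ℝ) : ℂ)‖ ≤ L * M1 * (N:ℝ) ^ (5/4 - δ') := by
    intro α N hN
    have h1 := abel_le (g := fun n => ec α n * v n) hwanti
      (fun n _ => by simp only [hw]; exact (one_div_pos.2 (hwpos n)).le)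
      (M := M1 * (N:ℝ) ^ (5/4 - δ')) hN (by
        intro x hx hxN
        refine (hprime α x hx).trans ?_
        apply mul_le_mul_of_nonneg_left _ hM10
        exact Real.rpow_le_rpow (Nat.cast_nonneg _) (by exact_mod_cast hxN) (by linarith))
    rw [hw1] at h1
    refine le_trans (le_of_eq ?_) (h1.trans (le_of_eq (by ring)))
    congr 1
    rw [sum_filter]
    apply sum_congr rfl
    intro n _
    simp only [hv, hw]
    by_cases hp : n.Prime
    · rw [if_pos hp, if_pos hp]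
      have h2 : (2:ℝ) ≤ n := by exact_mod_cast hp.two_le
      rw [max_eq_left h2]
      have h3 : Real.log n ≠ 0 := (Real.log_pos (by linarith)).ne'
      have h5 : ((1 / Real.log (n:ℝ) : ℝ) : ℂ) * ((Real.log n : ℝ) : ℂ) = 1 := by
        rw [← Complex.ofReal_mul, one_div_mul_cancel h3, Complex.ofReal_one]
      linear_combination (-(ec α n * ((F n : ℝ) : ℂ))) * h5
    · rw [if_neg hp, if_neg hp]
      ring
  refine ⟨δ', hδ'0, C + L * M1, ?_⟩
  intro N hN α q a hq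
  have hLM : 0 ≤ L * M1 := by positivity
  have hN0 : 0 ≤ (N:ℝ) ^ (5/4 - δ') := by positivity
  have hle1 : C * (N:ℝ) ^ (5/4 - δ) ≤ (C + L * M1) * (N:ℝ) ^ (5/4 - δ') := by
    calc _ ≤ C * (N:ℝ) ^ (5/4 - δ') := mul_le_mul_of_nonneg_left (hpow N hN) hC0
      _ ≤ _ := mul_le_mul_of_nonneg_right (by linarith) hN0
  have hle2 : L * M1 * (N:ℝ) ^ (5/4 - δ') ≤ (C + L * M1) * (N:ℝ) ^ (5/4 - δ') :=
    mul_le_mul_of_nonneg_right (by linarith) hN0
  refine ⟨?_, ?_, ?_⟩
  · refine le_trans ?_ hle1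
    have h1 := class_bound hq a (Icc 1 N) (fun n => ((ArithmeticFunction.moebius n : ℤ) : ℂ) * ((F n : ℝ) : ℂ))
      (M := C * (N:ℝ) ^ (5/4 - δ)) (by
        intro β
        refine le_trans (le_of_eq ?_) (h β N hN).1
        congr 1
        apply sum_congr rfl; intro n _
        unfold ec; ring) α
    refine le_trans (le_of_eq ?_) h1
    congr 1
    apply sum_congr rfl; intro n _
    unfold ec; ring
  · refine le_trans ?_ hle1
    have h1 := class_bound hq a (Icc 1 N) (fun n => ((ArithmeticFunction.vonMangoldt n : ℝ) : ℂ) * ((F n : ℝ) : ℂ))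
      (M := C * (N:ℝ) ^ (5/4 - δ)) (by
        intro β
        refine le_trans (le_of_eq ?_) (h β N hN).2
        congr 1
        apply sum_congr rfl; intro n _
        unfold ec; ring) α
    refine le_trans (le_of_eq ?_) h1
    congr 1
    apply sum_congr rfl; intro n _
    unfold ec; ring
  · refine le_trans ?_ hle2
    have h1 := class_bound hq a ((Icc 1 N).filter Nat.Prime) (fun n => ((F n : ℝ) : ℂ))
      (M := L * M1 * (N:ℝ) ^ (5/4 - δ')) (fun β => hsum β N hN) α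
    exact h1

end Pool.Agent.Q263.PS
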