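import Mathlib
import Pool.Agent.Q263.PS.Gen
import Pool.Agent.W24.CP.Fin
import Pool.Agent.H383.GaussW

/-! A pointwise bound from the smoothed Voronoi sandwich, and the general theorem on progressions and primes. -/

set_option autoImplicit false

open Finset
open Pool.Agent.H383 Pool.Agent.H383.Gauss Pool.Agent.H383.Circ
open Pool.Agent.H452R2.Win

namespace Pool.Agent.Q263.PS

variable {E : ℝ → ℝ} {a : ℕ → ℝ} {φ : ℝ} {w : ℝ → ℂ}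

lemma pt1 (ha : Bdw a) (ha0 : a 0 = 0) (hw : GW.Wt w) {κ₁ κ₂ : ℝ} (hS : SandW E a φ w κ₁ κ₂) :
    ∃ K : ℝ, 0 < K ∧ ∀ R : ℝ, 4 ≤ R → |E R| ≤ K * R ^ (1/5:ℝ) := by
  obtain ⟨C2, hC2, hT⟩ := WS_triv (φ := φ) ha.Bd ha0 hw
  obtain ⟨C0, hC0, hE⟩ := hS (1/30) (by norm_num)
  refine ⟨2 * C2 + 4 * C0, by positivity, ?_⟩
  intro R hR
  have hR0 : 0 < R := by linarith
  have hR1 : 1 ≤ R := by linarith
  set δ : ℝ := 1/2 * R ^ (-(1/3):ℝ) with hδ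
  have hRp : 0 < R ^ (-(1/3):ℝ) := by positivity
  have hRp1 : R ^ (-(1/3):ℝ) ≤ 1 := Real.rpow_le_one_of_one_le_of_nonpos hR1 (by norm_num)
  have hδ0 : 0 < δ := by positivity
  have hδ1 : δ ≤ 1/2 := by rw [hδ]; linarith
  have hR5 : 1 ≤ R ^ (1/5:ℝ) := Real.one_le_rpow hR1 (by norm_num)
  have h2 : ∀ s : ℝ, 0 ≤ s → s ≤ 1 → (1/2:ℝ) ^ (-s) ≤ 2 := by
    intro s _ hs1
    calc (1/2:ℝ) ^ (-s) ≤ (1/2:ℝ) ^ (-1:ℝ) :=
          Real.rpow_le_rpow_of_exponent_ge (by norm_num) (by norm_num) (by linarith)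
      _ = 2 := by rw [Real.rpow_neg_one]; norm_num
  have hd1 : δ ^ (-(3/5):ℝ) ≤ 2 * R ^ (1/5:ℝ) := by
    rw [hδ, Real.mul_rpow (by norm_num) hRp.le, ← Real.rpow_mul hR0.le]
    rw [show (-(1/3):ℝ) * (-(3/5)) = 1/5 by norm_num]
    exact mul_le_mul_of_nonneg_right (h2 (3/5) (by norm_num) (by norm_num)) (by positivity)
  have he : erw (1/30) R δ ≤ 4 * R ^ (1/5:ℝ) := by
    unfold erw
    have e1 : δ * R ^ (1/2 + 1/30 : ℝ) = 1/2 * R ^ (1/5:ℝ) := by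
      rw [hδ, mul_assoc, ← Real.rpow_add hR0]; norm_num
    have e2 : R ^ (-(12/25):ℝ) * δ ^ (-(13/25):ℝ) ≤ 2 * R ^ (1/5:ℝ) := by
      rw [hδ, Real.mul_rpow (by norm_num) hRp.le, ← Real.rpow_mul hR0.le]
      calc R ^ (-(12/25):ℝ) * ((1/2) ^ (-(13/25):ℝ) * R ^ (-(1/3) * -(13/25) : ℝ))
          = (1/2) ^ (-(13/25):ℝ) * (R ^ (-(12/25):ℝ) * R ^ (-(1/3) * -(13/25) : ℝ)) := by ring
        _ = (1/2) ^ (-(13/25):ℝ) * R ^ (-(23/75):ℝ) := by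
            rw [← Real.rpow_add hR0]; norm_num
        _ ≤ 2 * R ^ (1/5:ℝ) := by
            apply mul_le_mul (h2 (13/25) (by norm_num) (by norm_num)) _ (by positivity) (by norm_num)
            exact Real.rpow_le_rpow_of_exponent_le hR1 (by norm_num)
    have e3 : δ ^ (2/5:ℝ) ≤ R ^ (1/5:ℝ) := by
      have : δ ^ (2/5:ℝ) ≤ 1 := Real.rpow_le_one hδ0.le (by linarith) (by norm_num)
      linarith
    rw [e1]
    linarith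
  obtain ⟨h3, h4⟩ := hE R R δ hR hδ0 hδ1 (by simp [hδ0.le])
  have h5 := hT (R + κ₁ * δ) δ hδ0
  have h6 := hT (R + κ₂ * δ) δ hδ0
  rw [abs_le] at h5 h6
  have h7 : C2 * δ ^ (-(3/5):ℝ) ≤ C2 * (2 * R ^ (1/5:ℝ)) := mul_le_mul_of_nonneg_left hd1 hC2.le
  have h8 : C0 * erw (1/30) R δ ≤ C0 * (4 * R ^ (1/5:ℝ)) := mul_le_mul_of_nonneg_left he hC0.le
  rw [abs_le]
  constructor <;> nlinarith [h5.1, h5.2, h6.1, h6.2]

lemma pt (ha : Bdw a) (ha0 : a 0 = 0) (hw : GW.Wt w) {κ₁ κ₂ : ℝ} (hS : SandW E a φ w κ₁ κ₂) {c : ℝ}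
    (hc : 0 < c) : ∃ B : ℝ, ∀ n : ℕ, 1 ≤ n → |(n:ℝ) ^ (1/4:ℝ) * E (c * √(n:ℝ))| ≤ B * √(n:ℝ) := by
  obtain ⟨K, hK, h⟩ := pt1 ha ha0 hw hS
  set T := ⌈(4/c)^2⌉₊ with hT
  set f : ℕ → ℝ := fun n => |(n:ℝ) ^ (1/4:ℝ) * E (c * √(n:ℝ))| with hf
  set B1 := ∑ n ∈ range T, f n with hB1
  have hf0 : ∀ n, 0 ≤ f n := fun _ => abs_nonneg _
  have hB10 : 0 ≤ B1 := sum_nonneg fun _ _ => hf0 _
  refine ⟨K * c ^ (1/5:ℝ) + B1, ?_⟩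
  intro n hn
  have hn1 : (1:ℝ) ≤ n := by exact_mod_cast hn
  have hn0 : (0:ℝ) < n := by linarith
  have hs : 1 ≤ √(n:ℝ) := Real.one_le_sqrt.2 hn1
  rcases Nat.lt_or_ge n T with h1 | h1
  · have h2 : f n ≤ B1 := single_le_sum (f := f) (fun _ _ => hf0 _) (mem_range.2 h1)
    calc _ ≤ B1 := h2
      _ = 0 + B1 * 1 := by ring
      _ ≤ K * c ^ (1/5:ℝ) * √(n:ℝ) + B1 * √(n:ℝ) :=
          add_le_add (by positivity) (mul_le_mul_of_nonneg_left hs hB10)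
      _ = _ := by ring
  · have h2 : (4/c)^2 ≤ n := (Nat.le_ceil _).trans (by exact_mod_cast h1)
    have h3 : 4 ≤ c * √(n:ℝ) := by
      have h4 : 4/c ≤ √(n:ℝ) := by
        rw [← Real.sqrt_sq (by positivity : 0 ≤ 4/c)]
        exact Real.sqrt_le_sqrt h2
      rw [div_le_iff₀ hc] at h4
      linarith
    have h4 := h _ h3
    rw [abs_mul, abs_of_nonneg (by positivity : 0 ≤ (n:ℝ) ^ (1/4:ℝ))]
    calc _ ≤ (n:ℝ) ^ (1/4:ℝ) * (K * (c * √(n:ℝ)) ^ (1/5:ℝ)) :=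
          mul_le_mul_of_nonneg_left h4 (by positivity)
      _ = K * c ^ (1/5:ℝ) * ((n:ℝ) ^ (1/4:ℝ) * (n:ℝ) ^ (1/10:ℝ)) := by
          rw [Real.mul_rpow hc.le (by positivity), Real.sqrt_eq_rpow, ← Real.rpow_mul hn0.le]
          rw [show (1/2:ℝ) * (1/5) = 1/10 by norm_num]
          ring
      _ = K * c ^ (1/5:ℝ) * (n:ℝ) ^ (7/20:ℝ) := by rw [← Real.rpow_add hn0]; norm_num
      _ ≤ K * c ^ (1/5:ℝ) * (n:ℝ) ^ (1/2:ℝ) := by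
          apply mul_le_mul_of_nonneg_left _ (by positivity)
          exact Real.rpow_le_rpow_of_exponent_le hn1 (by norm_num)
      _ = K * c ^ (1/5:ℝ) * √(n:ℝ) + 0 := by rw [Real.sqrt_eq_rpow, add_zero]
      _ ≤ K * c ^ (1/5:ℝ) * √(n:ℝ) + B1 * √(n:ℝ) := by
          have : 0 ≤ B1 * √(n:ℝ) := by positivity
          linarith
      _ = _ := by ring

/-- the general theorem -/
theorem gen (ha : Bdw a) (ha0 : a 0 = 0) (hw : GW.Wt w) {κ₁ κ₂ : ℝ} (hS : SandW E a φ w κ₁ κ₂) {c : ℝ}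
    (hc : 0 < c) (F : ℕ → ℝ) (hF : ∀ n : ℕ, 1 ≤ n → F n = (n:ℝ) ^ (1/4:ℝ) * E (c * √(n:ℝ))) :
    ∃ δ' : ℝ, 0 < δ' ∧ ∃ C' : ℝ, ∀ N : ℕ, 1 ≤ N → ∀ (α : ℝ) (q b : ℕ), 1 ≤ q →
      ‖∑ n ∈ (Icc 1 N).filter (fun n => n ≡ b [MOD q]), ((ArithmeticFunction.moebius n : ℤ) : ℂ) *
        Complex.exp (2 * Real.pi * Complex.I * (α * n)) * ((F n : ℝ) : ℂ)‖ ≤ C' * (N:ℝ) ^ (5/4 - δ') ∧
      ‖∑ n ∈ (Icc 1 N).filter (fun n => n ≡ b [MOD q]), ((ArithmeticFunction.vonMangoldt n : ℝ) : ℂ) *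
        Complex.exp (2 * Real.pi * Complex.I * (α * n)) * ((F n : ℝ) : ℂ)‖ ≤ C' * (N:ℝ) ^ (5/4 - δ') ∧
      ‖∑ p ∈ ((Icc 1 N).filter Nat.Prime).filter (fun n => n ≡ b [MOD q]),
        Complex.exp (2 * Real.pi * Complex.I * (α * p)) * ((F p : ℝ) : ℂ)‖ ≤ C' * (N:ℝ) ^ (5/4 - δ') := by
  obtain ⟨δ, hδ, C, h⟩ := Pool.Agent.W24.CP.save_gen ha ha0 hw hS hc F hF
  obtain ⟨B, hB⟩ := pt ha ha0 hw hS hc
  refine main (δ := δ) (C := C) (B := B) hδ ?_ h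
  intro n hn
  rw [hF n hn]
  exact hB n hn

end Pool.Agent.Q263.PS
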