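import Mathlib
import Pool.Agent.Q263.PS.Pt
import Pool.Agent.W24.CP.Two

set_option autoImplicit false

open Finset

namespace Pool.Agent.Q263.PS

/-- scaling by a constant -/
lemma scale {F G : ℕ → ℝ} {k : ℝ} (hG : ∀ n : ℕ, 1 ≤ n → G n = k * F n)
    (h : ∃ δ' : ℝ, 0 < δ' ∧ ∃ C' : ℝ, ∀ N : ℕ, 1 ≤ N → ∀ (α : ℝ) (q b : ℕ), 1 ≤ q →
      ‖∑ n ∈ (Icc 1 N).filter (fun n => n ≡ b [MOD q]), ((ArithmeticFunction.moebius n : ℤ) : ℂ) *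
        Complex.exp (2 * Real.pi * Complex.I * (α * n)) * ((F n : ℝ) : ℂ)‖ ≤ C' * (N:ℝ) ^ (5/4 - δ') ∧
      ‖∑ n ∈ (Icc 1 N).filter (fun n => n ≡ b [MOD q]), ((ArithmeticFunction.vonMangoldt n : ℝ) : ℂ) *
        Complex.exp (2 * Real.pi * Complex.I * (α * n)) * ((F n : ℝ) : ℂ)‖ ≤ C' * (N:ℝ) ^ (5/4 - δ') ∧
      ‖∑ p ∈ ((Icc 1 N).filter Nat.Prime).filter (fun n => n ≡ b [MOD q]),
        Complex.exp (2 * Real.pi * Complex.I * (α * p)) * ((F p : ℝ) : ℂ)‖ ≤ C' * (N:ℝ) ^ (5/4 - δ')) :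
    ∃ δ' : ℝ, 0 < δ' ∧ ∃ C' : ℝ, ∀ N : ℕ, 1 ≤ N → ∀ (α : ℝ) (q b : ℕ), 1 ≤ q →
      ‖∑ n ∈ (Icc 1 N).filter (fun n => n ≡ b [MOD q]), ((ArithmeticFunction.moebius n : ℤ) : ℂ) *
        Complex.exp (2 * Real.pi * Complex.I * (α * n)) * ((G n : ℝ) : ℂ)‖ ≤ C' * (N:ℝ) ^ (5/4 - δ') ∧
      ‖∑ n ∈ (Icc 1 N).filter (fun n => n ≡ b [MOD q]), ((ArithmeticFunction.vonMangoldt n : ℝ) : ℂ) *
        Complex.exp (2 * Real.pi * Complex.I * (α * n)) * ((G n : ℝ) : ℂ)‖ ≤ C' * (N:ℝ) ^ (5/4 - δ') ∧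
      ‖∑ p ∈ ((Icc 1 N).filter Nat.Prime).filter (fun n => n ≡ b [MOD q]),
        Complex.exp (2 * Real.pi * Complex.I * (α * p)) * ((G p : ℝ) : ℂ)‖ ≤ C' * (N:ℝ) ^ (5/4 - δ') := by
  obtain ⟨δ, hδ, C, h⟩ := h
  refine ⟨δ, hδ, |k| * C, ?_⟩
  intro N hN α q b hq
  have hmul : ∀ (v : ℕ → ℂ) (S : Finset ℕ), S ⊆ Icc 1 N → ∑ n ∈ S, v n * ((G n : ℝ) : ℂ) =
      (k : ℂ) * ∑ n ∈ S, v n * ((F n : ℝ) : ℂ) := by
    intro v S hS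
    rw [mul_sum]
    apply sum_congr rfl
    intro n hn
    rw [hG n (mem_Icc.1 (hS hn)).1, Complex.ofReal_mul]
    ring
  have hn : ∀ z : ℂ, ∀ M : ℝ, ‖z‖ ≤ C * M → ‖(k : ℂ) * z‖ ≤ |k| * C * M := by
    intro z M hz
    rw [norm_mul, Complex.norm_real, Real.norm_eq_abs, mul_assoc]
    exact mul_le_mul_of_nonneg_left hz (abs_nonneg _)
  obtain ⟨h1, h2, h3⟩ := h N hN α q b hq
  refine ⟨?_, ?_, ?_⟩
  · rw [hmul _ _ (filter_subset _ _)]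
    exact hn _ _ h1
  · rw [hmul _ _ (filter_subset _ _)]
    exact hn _ _ h2
  · rw [hmul _ _ ((filter_subset _ _).trans (filter_subset _ _))]
    exact hn _ _ h3

/-- the error term of the circle problem, as a function of the square of the radius -/
noncomputable def Pe (x : ℝ) : ℝ :=
  (Nat.card {p : ℤ × ℤ // (p.1 : ℝ) ^ 2 + (p.2 : ℝ) ^ 2 ≤ x} : ℝ) - Real.pi * x

open Pool.Agent.H383 Pool.Agent.H383.Gauss Pool.Agent.H383.Circ Pool.Agent.H452R2.Win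
  Pool.Agent.H425R3.JL in
theorem circ_main {κ : ℝ} (hκ : 0 < κ) :
    ∃ δ' : ℝ, 0 < δ' ∧ ∃ C' : ℝ, ∀ N : ℕ, 1 ≤ N → ∀ (α : ℝ) (q b : ℕ), 1 ≤ q →
      ‖∑ n ∈ (Icc 1 N).filter (fun n => n ≡ b [MOD q]), ((ArithmeticFunction.moebius n : ℤ) : ℂ) *
        Complex.exp (2 * Real.pi * Complex.I * (α * n)) * ((Pe (κ * n) : ℝ) : ℂ)‖ ≤ C' * (N:ℝ) ^ (5/4 - δ') ∧
      ‖∑ n ∈ (Icc 1 N).filter (fun n => n ≡ b [MOD q]), ((ArithmeticFunction.vonMangoldt n : ℝ) : ℂ) *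
        Complex.exp (2 * Real.pi * Complex.I * (α * n)) * ((Pe (κ * n) : ℝ) : ℂ)‖ ≤ C' * (N:ℝ) ^ (5/4 - δ') ∧
      ‖∑ p ∈ ((Icc 1 N).filter Nat.Prime).filter (fun n => n ≡ b [MOD q]),
        Complex.exp (2 * Real.pi * Complex.I * (α * p)) * ((Pe (κ * p) : ℝ) : ℂ)‖ ≤ C' * (N:ℝ) ^ (5/4 - δ') := by
  refine scale (k := κ ^ (1/4:ℝ)) ?_ (gen (E := En) ag_Bdw ag_zero wg_Wt En_SandW
    (c := √κ) (Real.sqrt_pos.2 hκ) (fun n => (n:ℝ) ^ (1/4:ℝ) * En (√κ * √(n:ℝ))) (fun _ _ => rfl))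
  intro n hn
  have hn0 : (0:ℝ) < n := by exact_mod_cast hn
  have hx : 0 < κ * n := by positivity
  rw [← Real.sqrt_mul hκ.le, Ec_eq hx.le, ← mul_assoc, ← Real.mul_rpow hκ.le hn0.le]
  unfold Ec Pe
  have : (κ * (n:ℝ)) ^ (1/4:ℝ) ≠ 0 := by positivity
  field_simp

end Pool.Agent.Q263.PS
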