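import Mathlib
import Pool.Agent.Q263.PS.Pt

/-! Second moments: approximation in mean square along arithmetic progressions. -/

set_option autoImplicit false

open Finset
open Pool.Agent.H383
open Pool.Agent.H383.Gen (Bd U)
open Pool.Agent.H452R2.Win Pool.Agent.H452R2.Om
open Pool.Agent.H469R2.NK
open Pool.Agent.W24.CP

namespace Pool.Agent.Q263.PS

variable {E : ℝ → ℝ} {a : ℕ → ℝ} {φ : ℝ} {w : ℝ → ℂ}

/-- the truncation error on a block -/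
lemma ms_block (ha : Bdw a) (ha0 : a 0 = 0) (hw : GW.Wt w) {κ₁ κ₂ : ℝ} (hS : SandW E a φ w κ₁ κ₂)
    {c : ℝ} (hc : 0 < c) :
    ∃ ω : ℝ, 0 < ω ∧ ω ≤ 1/200 ∧ ∃ C : ℝ, 0 < C ∧ ∃ X0 : ℕ, ∀ X X' : ℕ, X0 ≤ X → X' ≤ 2 * X →
      ∀ M : ℕ, 1 ≤ M → 4 * ((M:ℝ) + 1) ≤ min 1 c * √(X:ℝ) →
      ∑ n ∈ Ioc X X', (E (c * √(n:ℝ)) - U a φ (c * √(n:ℝ)) M)^2 ≤
        C * X * ((M:ℝ) ^ (-ω) + (M:ℝ)^4 * (X:ℝ) ^ (-(1/2):ℝ) + (X:ℝ) ^ (-(ω/2))) := by
  obtain ⟨ω, hω, hω2, C, hC, T0, hms⟩ := ms_T ha ha0 hw hS hc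
  refine ⟨ω, hω, hω2, 2 * C, by positivity, max ((T0 + 1)^2) 16, ?_⟩
  intro X X' hX hX' M hM1 hM
  have hXT : (T0 + 1)^2 ≤ X := le_trans (le_max_left _ _) hX
  have hX16 : 16 ≤ X := le_trans (le_max_right _ _) hX
  set T := Nat.sqrt X with hT
  have hTT0 : T0 + 1 ≤ T := by rw [hT, Nat.le_sqrt']; exact hXT
  have hT4 : 4 ≤ T := by rw [hT, Nat.le_sqrt']; exact hX16
  have hTX : T^2 ≤ X := Nat.sqrt_le' X
  have hTX2 : X < (T+1)^2 := Nat.lt_succ_sqrt' X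
  have hsub : Ioc X X' ⊆ Ico (T^2) (4 * T^2) := by
    intro n hn
    rw [mem_Ioc] at hn
    rw [mem_Ico]
    constructor
    · omega
    · nlinarith
  have hTr : (4:ℝ) ≤ T := by exact_mod_cast hT4
  have hTpos : (0:ℝ) < T := by linarith
  have hTle : (T:ℝ)^2 ≤ X := by exact_mod_cast hTX
  have hX1 : (1:ℝ) ≤ X := by exact_mod_cast (by omega : 1 ≤ X)
  have hX0 : (0:ℝ) < X := by linarith
  have hsX : √(X:ℝ) = (X:ℝ) ^ (1/2:ℝ) := Real.sqrt_eq_rpow _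
  have hTge : √(X:ℝ) / 2 ≤ T := by
    have h1 : √(X:ℝ) ≤ T + 1 := by
      rw [Real.sqrt_le_left (by positivity)]
      exact_mod_cast hTX2.le
    linarith
  have hm0 : 0 < min 1 c := by positivity
  have hMT : 2 * ((M:ℝ) + 1) ≤ min 1 c * T := by
    have h2 : min 1 c * (√(X:ℝ) / 2) ≤ min 1 c * T := mul_le_mul_of_nonneg_left hTge hm0.le
    linarith
  have key := hms T (by omega) M hM1 hMT
  have hs0 : 0 < √(X:ℝ) := Real.sqrt_pos.2 hX0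
  have h2ω : (2:ℝ) ^ ω ≤ 2 := by
    calc (2:ℝ) ^ ω ≤ (2:ℝ) ^ (1:ℝ) := Real.rpow_le_rpow_of_exponent_le (by norm_num) (by linarith)
      _ = 2 := by norm_num
  have w2 : (T:ℝ) ^ (-1:ℝ) ≤ 2 * (X:ℝ) ^ (-(1/2):ℝ) := by
    calc (T:ℝ) ^ (-1:ℝ) ≤ (√(X:ℝ) / 2) ^ (-1:ℝ) :=
          Real.rpow_le_rpow_of_nonpos (by positivity) hTge (by norm_num)
      _ = _ := by
          rw [Real.rpow_neg_one, hsX, Real.rpow_neg hX0.le]
          field_simp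
  have w3 : (T:ℝ) ^ (-ω) ≤ 2 * (X:ℝ) ^ (-(ω/2)) := by
    calc (T:ℝ) ^ (-ω) ≤ (√(X:ℝ) / 2) ^ (-ω) := Real.rpow_le_rpow_of_nonpos (by positivity) hTge (by linarith)
      _ = √(X:ℝ) ^ (-ω) * 2 ^ ω := by
          rw [Real.div_rpow (by positivity) (by norm_num), Real.rpow_neg (by norm_num : (0:ℝ) ≤ 2)]
          field_simp
      _ ≤ √(X:ℝ) ^ (-ω) * 2 := by gcongr
      _ = 2 * (X:ℝ) ^ (-(ω/2)) := by
          rw [hsX, ← Real.rpow_mul hX0.le, mul_comm]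
          congr 2
          ring
  calc _ ≤ ∑ n ∈ Ico (T^2) (4*T^2), (E (c * √(n:ℝ)) - U a φ (c * √(n:ℝ)) M)^2 :=
        sum_le_sum_of_subset_of_nonneg hsub (fun _ _ _ => sq_nonneg _)
    _ ≤ C * (T:ℝ)^2 * ((M:ℝ) ^ (-ω) + (M:ℝ)^4 * (T:ℝ) ^ (-1:ℝ) + (T:ℝ) ^ (-ω)) := key
    _ ≤ C * X * (2 * (M:ℝ) ^ (-ω) + (M:ℝ)^4 * (2 * (X:ℝ) ^ (-(1/2):ℝ)) + 2 * (X:ℝ) ^ (-(ω/2))) := by
        have h1 : 0 ≤ (M:ℝ) ^ (-ω) := by positivity
        gcongr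
        linarith
    _ = _ := by ring

/-- approximation along an arithmetic progression, with the parameter `N ^ (1/1024)`, and the mean square -/
lemma ms_ap (ha : Bdw a) (ha0 : a 0 = 0) (hw : GW.Wt w) {κ₁ κ₂ : ℝ} (hS : SandW E a φ w κ₁ κ₂)
    {c : ℝ} (hc : 0 < c) :
    ∃ δ : ℝ, 0 < δ ∧ δ ≤ 1/819200 ∧ ∀ k l : ℕ, 0 < k → ∃ C : ℝ, 0 < C ∧ ∃ N0 : ℕ, 16 ≤ N0 ∧
      ∀ N N' : ℕ, N0 ≤ N → N' ≤ 2 * N →
      ∑ n ∈ Ioc N N', (E (c * √((k * n + l : ℕ):ℝ)) - U a φ (c * √(k:ℝ) * √(n:ℝ)) ⌊(N:ℝ) ^ (1/1024:ℝ)⌋₊)^2 ≤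
        C * (N:ℝ) ^ (1 - 4 * δ) ∧
      ∑ n ∈ Ioc N N', (E (c * √((k * n + l : ℕ):ℝ)))^2 ≤ C * N := by
  obtain ⟨ω, hω, hω2, C, hC, X0, hms⟩ := ms_block ha ha0 hw hS hc
  obtain ⟨Ca, hCa0, hCa⟩ := a_sqrt ha.Bd
  obtain ⟨K, hK, hlip⟩ := U_lip ha.Bd φ
  set δ : ℝ := ω / 4096 with hδ
  have hδ0 : 0 < δ := by positivity
  have hδ1 : δ ≤ 1/819200 := by rw [hδ]; linarith
  refine ⟨δ, hδ0, hδ1, ?_⟩
  intro k l hk
  have hm0 : 0 < min 1 c := by positivity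
  have ev2 : ∀ᶠ N : ℕ in Filter.atTop, 8 / min 1 c ≤ (N:ℝ) ^ (1/4:ℝ) :=
    (((tendsto_rpow_atTop (by norm_num : (0:ℝ) < 1/4)).comp tendsto_natCast_atTop_atTop).eventually_ge_atTop _)
  obtain ⟨N1, hN1⟩ := Filter.eventually_atTop.mp ev2
  set Cs : ℝ := 2 * (C * (k + l) * 4) + 2 * (K * c * l)^2 with hCs
  set Cm : ℝ := 2 * (C * (k + l) * 3) + 2 * Ca^2 with hCm
  refine ⟨Cs + Cm + 1, by positivity, max (max N1 X0) 16, le_max_right _ _, ?_⟩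
  intro N N' hN hNN'
  have hNN1 : N1 ≤ N := le_trans (le_trans (le_max_left _ _) (le_max_left _ _)) hN
  have hNX0 : X0 ≤ N := le_trans (le_trans (le_max_right _ _) (le_max_left _ _)) hN
  have hN16 : 16 ≤ N := le_trans (le_max_right _ _) hN
  have hNr : (1:ℝ) ≤ N := by exact_mod_cast (by omega : 1 ≤ N)
  have hNpos : (0:ℝ) < N := by linarith
  have g2 := hN1 N hNN1
  have hsN : √(N:ℝ) = (N:ℝ) ^ (1/2:ℝ) := Real.sqrt_eq_rpow _
  have hkr : (1:ℝ) ≤ k := by exact_mod_cast hk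
  set X : ℕ := k * N + l with hX
  have hNX : N ≤ X := by rw [hX]; nlinarith
  have hXr : (N:ℝ) ≤ X := by exact_mod_cast hNX
  have hXle : (X:ℝ) ≤ (k + l) * N := by
    rw [hX]; push_cast
    have : (l:ℝ) * 1 ≤ l * N := mul_le_mul_of_nonneg_left hNr (by positivity)
    nlinarith
  have hX0r : (0:ℝ) < X := by linarith
  -- reduction to the block
  have hred : ∀ f : ℕ → ℝ, (∀ n, 0 ≤ f n) → ∑ n ∈ Ioc N N', f (k * n + l) ≤ ∑ x ∈ Ioc X (k * N' + l), f x := by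
    intro f hf
    have hinj : Set.InjOn (fun n : ℕ => k * n + l) (Ioc N N' : Set ℕ) := by
      intro x _ y _ hxy
      have : k * x = k * y := by simpa using hxy
      exact Nat.eq_of_mul_eq_mul_left hk this
    calc ∑ n ∈ Ioc N N', f (k * n + l) = ∑ x ∈ (Ioc N N').image (fun n => k * n + l), f x := by
          rw [sum_image]; exact fun x hx y hy h => hinj (by exact_mod_cast hx) (by exact_mod_cast hy) h
      _ ≤ _ := by
          apply sum_le_sum_of_subset_of_nonneg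
          · intro x hx
            rw [mem_image] at hx
            obtain ⟨n, hn, rfl⟩ := hx
            rw [mem_Ioc] at hn ⊢
            constructor
            · rw [hX]; have := Nat.mul_lt_mul_of_pos_left hn.1 hk; omega
            · have := Nat.mul_le_mul_left k hn.2; omega
          · intro x _ _; exact hf x
  have hX'2 : k * N' + l ≤ 2 * X := by rw [hX]; nlinarith
  -- a bound with the parameter M
  have hgen : ∀ M : ℕ, 1 ≤ M → 4 * ((M:ℝ) + 1) ≤ min 1 c * √(N:ℝ) →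
      ∑ n ∈ Ioc N N', (E (c * √((k * n + l : ℕ):ℝ)) - U a φ (c * √((k * n + l : ℕ):ℝ)) M)^2 ≤
        C * (k + l) * N * ((M:ℝ) ^ (-ω) + (M:ℝ)^4 * (N:ℝ) ^ (-(1/2):ℝ) + (N:ℝ) ^ (-(ω/2))) := by
    intro M hM1 hM
    have h1 := hred (fun x => (E (c * √(x:ℝ)) - U a φ (c * √(x:ℝ)) M)^2) (fun _ => sq_nonneg _)
    have h2 := hms X (k * N' + l) (hNX0.trans hNX) hX'2 M hM1
      (hM.trans (mul_le_mul_of_nonneg_left (Real.sqrt_le_sqrt hXr) hm0.le))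
    refine h1.trans (h2.trans ?_)
    have e1 : (X:ℝ) ^ (-(1/2):ℝ) ≤ (N:ℝ) ^ (-(1/2):ℝ) := Real.rpow_le_rpow_of_nonpos hNpos hXr (by norm_num)
    have e2 : (X:ℝ) ^ (-(ω/2)) ≤ (N:ℝ) ^ (-(ω/2)) := Real.rpow_le_rpow_of_nonpos hNpos hXr (by linarith)
    calc C * X * ((M:ℝ) ^ (-ω) + (M:ℝ)^4 * (X:ℝ) ^ (-(1/2):ℝ) + (X:ℝ) ^ (-(ω/2)))
        ≤ C * ((k + l) * N) * ((M:ℝ) ^ (-ω) + (M:ℝ)^4 * (N:ℝ) ^ (-(1/2):ℝ) + (N:ℝ) ^ (-(ω/2))) := by gcongr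
      _ = _ := by ring
  have h4N : ∀ u : ℝ, 1 ≤ u → u ≤ (N:ℝ) ^ (1/4:ℝ) → 4 * (u + 1) ≤ min 1 c * √(N:ℝ) := by
    intro u hu1 h2
    rw [div_le_iff₀ hm0] at g2
    have h3 : (N:ℝ) ^ (1/4:ℝ) * (N:ℝ) ^ (1/4:ℝ) = √(N:ℝ) := by
      rw [← Real.rpow_add hNpos, hsN]; norm_num
    have h4 : 0 < (N:ℝ) ^ (1/4:ℝ) := by positivity
    calc 4 * (u + 1) ≤ 8 * (N:ℝ) ^ (1/4:ℝ) := by linarith
      _ ≤ ((N:ℝ) ^ (1/4:ℝ) * min 1 c) * (N:ℝ) ^ (1/4:ℝ) := by gcongr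
      _ = min 1 c * ((N:ℝ) ^ (1/4:ℝ) * (N:ℝ) ^ (1/4:ℝ)) := by ring
      _ = _ := by rw [h3]
  have hN14 : 1 ≤ (N:ℝ) ^ (1/4:ℝ) := Real.one_le_rpow hNr (by norm_num)
  have hcard : ((Ioc N N').card : ℝ) ≤ N := by
    rw [Nat.card_Ioc]; exact_mod_cast (by omega : N' - N ≤ N)
  constructor
  · -- the approximation
    set u : ℝ := (N:ℝ) ^ (1/1024:ℝ) with hu
    have hu1 : 1 ≤ u := Real.one_le_rpow hNr (by norm_num)
    set M : ℕ := ⌊u⌋₊ with hM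
    have hM1 : 1 ≤ M := by rw [hM, Nat.one_le_floor_iff]; exact hu1
    have hMu : (M:ℝ) ≤ u := Nat.floor_le (by linarith)
    have hM1r : (1:ℝ) ≤ M := by exact_mod_cast hM1
    have huM : u / 2 ≤ M := by
      have h1 := Nat.lt_floor_add_one u
      rw [← hM] at h1
      linarith
    have hMc : 4 * ((M:ℝ) + 1) ≤ min 1 c * √(N:ℝ) :=
      h4N M hM1r (hMu.trans (Real.rpow_le_rpow_of_exponent_le hNr (by norm_num)))
    have key := hgen M hM1 hMc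
    have h2ω : (2:ℝ) ^ ω ≤ 2 := by
      calc (2:ℝ) ^ ω ≤ (2:ℝ) ^ (1:ℝ) := Real.rpow_le_rpow_of_exponent_le (by norm_num) (by linarith)
        _ = 2 := by norm_num
    have w1 : (M:ℝ) ^ (-ω) ≤ 2 * (N:ℝ) ^ (-(4 * δ)) := by
      calc (M:ℝ) ^ (-ω) ≤ (u/2) ^ (-ω) := Real.rpow_le_rpow_of_nonpos (by linarith) huM (by linarith)
        _ = u ^ (-ω) * 2 ^ ω := by
            rw [Real.div_rpow (by linarith) (by norm_num), Real.rpow_neg (by norm_num : (0:ℝ) ≤ 2)]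
            field_simp
        _ ≤ u ^ (-ω) * 2 := by gcongr
        _ = 2 * (N:ℝ) ^ (-(4 * δ)) := by
            rw [hu, ← Real.rpow_mul hNpos.le, mul_comm]
            congr 2
            rw [hδ]; ring
    have hu4 : u^4 = (N:ℝ) ^ (1/256:ℝ) := by
      rw [hu, ← Real.rpow_natCast, ← Real.rpow_mul hNpos.le]; norm_num
    have w2 : (M:ℝ)^4 * (N:ℝ) ^ (-(1/2):ℝ) ≤ (N:ℝ) ^ (-(4 * δ)) := by
      calc (M:ℝ)^4 * (N:ℝ) ^ (-(1/2):ℝ) ≤ u^4 * (N:ℝ) ^ (-(1/2):ℝ) := by gcongr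
        _ = (N:ℝ) ^ (-(127/256):ℝ) := by rw [hu4, ← Real.rpow_add hNpos]; norm_num
        _ ≤ _ := Real.rpow_le_rpow_of_exponent_le hNr (by linarith)
    have w3 : (N:ℝ) ^ (-(ω/2)) ≤ (N:ℝ) ^ (-(4 * δ)) := by
      apply Real.rpow_le_rpow_of_exponent_le hNr
      rw [hδ]; linarith
    have hmain : ∑ n ∈ Ioc N N', (E (c * √((k * n + l : ℕ):ℝ)) - U a φ (c * √((k * n + l : ℕ):ℝ)) M)^2 ≤
        C * (k + l) * 4 * (N:ℝ) ^ (1 - 4 * δ) := by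
      refine key.trans ?_
      calc _ ≤ C * (k + l) * N * (2 * (N:ℝ) ^ (-(4 * δ)) + (N:ℝ) ^ (-(4 * δ)) + (N:ℝ) ^ (-(4 * δ))) := by gcongr
        _ = C * (k + l) * 4 * ((N:ℝ) ^ (1:ℝ) * (N:ℝ) ^ (-(4 * δ))) := by rw [Real.rpow_one]; ring
        _ = _ := by rw [← Real.rpow_add hNpos]; congr 2
    -- the shift
    have hshift : ∀ n ∈ Ioc N N', (U a φ (c * √((k * n + l : ℕ):ℝ)) M - U a φ (c * √(k:ℝ) * √(n:ℝ)) M)^2 ≤
        (K * c * l)^2 * (N:ℝ) ^ (-(1/2):ℝ) := by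
      intro n hn
      rw [mem_Ioc] at hn
      have hnr : (N:ℝ) ≤ n := by exact_mod_cast hn.1.le
      have hn0 : (0:ℝ) < n := by linarith
      have hx : (N:ℝ) ≤ k * n := by nlinarith
      have hx0 : (0:ℝ) < k * n := by positivity
      have hs0 : 0 < √((k:ℝ) * n) := Real.sqrt_pos.2 hx0
      have h1 := hlip M (c * √((k * n + l : ℕ):ℝ)) (c * √(k:ℝ) * √(n:ℝ))
      have e1 : c * √(k:ℝ) * √(n:ℝ) = c * √((k:ℝ) * n) := by
        rw [Real.sqrt_mul (by positivity)]; ring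
      have e2 : √((k * n + l : ℕ):ℝ) ≤ √((k:ℝ) * n) + l / √((k:ℝ) * n) := by
        rw [Real.sqrt_le_left (by positivity)]
        push_cast
        have h3 : √((k:ℝ) * n)^2 = k * n := Real.sq_sqrt hx0.le
        have h4 : √((k:ℝ) * n) * (l / √((k:ℝ) * n)) = l := by field_simp
        have h5 : 0 ≤ (l / √((k:ℝ) * n))^2 := sq_nonneg _
        have h6 : (0:ℝ) ≤ l := by positivity
        calc (k:ℝ) * n + l ≤ √((k:ℝ) * n)^2 + 2 * (√((k:ℝ) * n) * (l / √((k:ℝ) * n))) + (l / √((k:ℝ) * n))^2 := by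
              rw [h3, h4]; linarith
          _ = _ := by ring
      have e3 : √((k:ℝ) * n) ≤ √((k * n + l : ℕ):ℝ) := by
        apply Real.sqrt_le_sqrt; push_cast; linarith [(Nat.cast_nonneg l : (0:ℝ) ≤ l)]
      have e4 : |c * √((k * n + l : ℕ):ℝ) - c * √(k:ℝ) * √(n:ℝ)| ≤ c * (l / √(N:ℝ)) := by
        rw [e1, ← mul_sub, abs_mul, abs_of_pos hc]
        apply mul_le_mul_of_nonneg_left _ hc.le
        rw [abs_of_nonneg (by linarith)]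
        have h7 : l / √((k:ℝ) * n) ≤ l / √(N:ℝ) := by
          apply div_le_div_of_nonneg_left (by positivity) (Real.sqrt_pos.2 hNpos)
          exact Real.sqrt_le_sqrt hx
        linarith
      have e5 : |U a φ (c * √((k * n + l : ℕ):ℝ)) M - U a φ (c * √(k:ℝ) * √(n:ℝ)) M| ≤
          (K * c * l) * (N:ℝ) ^ (-(1/4):ℝ) := by
        refine h1.trans ?_
        calc K * (M:ℝ)^2 * |c * √((k * n + l : ℕ):ℝ) - c * √(k:ℝ) * √(n:ℝ)|
            ≤ K * u^2 * (c * (l / √(N:ℝ))) := by gcongr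
          _ = K * c * l * (u^2 * (√(N:ℝ))⁻¹) := by rw [div_eq_mul_inv]; ring
          _ = K * c * l * (N:ℝ) ^ (-(255/512):ℝ) := by
              rw [hsN, ← Real.rpow_neg hNpos.le, hu, ← Real.rpow_natCast, ← Real.rpow_mul hNpos.le,
                ← Real.rpow_add hNpos]
              norm_num
          _ ≤ _ := by
              apply mul_le_mul_of_nonneg_left _ (by positivity)
              exact Real.rpow_le_rpow_of_exponent_le hNr (by norm_num)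
      calc _ = |U a φ (c * √((k * n + l : ℕ):ℝ)) M - U a φ (c * √(k:ℝ) * √(n:ℝ)) M|^2 := (sq_abs _).symm
        _ ≤ ((K * c * l) * (N:ℝ) ^ (-(1/4):ℝ))^2 := pow_le_pow_left₀ (abs_nonneg _) e5 2
        _ = _ := by
            rw [mul_pow, ← Real.rpow_natCast ((N:ℝ) ^ (-(1/4):ℝ)), ← Real.rpow_mul hNpos.le]
            norm_num
    have hsh2 : ∑ n ∈ Ioc N N', (U a φ (c * √((k * n + l : ℕ):ℝ)) M - U a φ (c * √(k:ℝ) * √(n:ℝ)) M)^2 ≤
        (K * c * l)^2 * (N:ℝ) ^ (1 - 4 * δ) := by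
      refine (sum_le_sum hshift).trans ?_
      rw [sum_const, nsmul_eq_mul]
      calc _ ≤ (N:ℝ) * ((K * c * l)^2 * (N:ℝ) ^ (-(1/2):ℝ)) := mul_le_mul_of_nonneg_right hcard (by positivity)
        _ = (K * c * l)^2 * ((N:ℝ) ^ (1:ℝ) * (N:ℝ) ^ (-(1/2):ℝ)) := by rw [Real.rpow_one]; ring
        _ = (K * c * l)^2 * (N:ℝ) ^ (1/2:ℝ) := by rw [← Real.rpow_add hNpos]; norm_num
        _ ≤ _ := by
            apply mul_le_mul_of_nonneg_left _ (by positivity)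
            exact Real.rpow_le_rpow_of_exponent_le hNr (by linarith)
    calc _ ≤ ∑ n ∈ Ioc N N', (2 * (E (c * √((k * n + l : ℕ):ℝ)) - U a φ (c * √((k * n + l : ℕ):ℝ)) M)^2 +
            2 * (U a φ (c * √((k * n + l : ℕ):ℝ)) M - U a φ (c * √(k:ℝ) * √(n:ℝ)) M)^2) := by
          apply sum_le_sum; intro n _
          nlinarith [sq_nonneg (E (c * √((k * n + l : ℕ):ℝ)) - U a φ (c * √((k * n + l : ℕ):ℝ)) M -
            (U a φ (c * √((k * n + l : ℕ):ℝ)) M - U a φ (c * √(k:ℝ) * √(n:ℝ)) M))]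
      _ ≤ Cs * (N:ℝ) ^ (1 - 4 * δ) := by
          rw [sum_add_distrib, ← mul_sum, ← mul_sum, hCs]
          linarith
      _ ≤ _ := by
          apply mul_le_mul_of_nonneg_right _ (by positivity)
          have : 0 ≤ Cm := by positivity
          linarith
  · -- the mean square
    have key := hgen 1 le_rfl (h4N (1:ℕ) (by norm_num) (by exact_mod_cast hN14))
    have hb : ∑ n ∈ Ioc N N', (E (c * √((k * n + l : ℕ):ℝ)) - U a φ (c * √((k * n + l : ℕ):ℝ)) 1)^2 ≤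
        C * (k + l) * 3 * N := by
      refine key.trans ?_
      have e1 : (N:ℝ) ^ (-(1/2):ℝ) ≤ 1 := Real.rpow_le_one_of_one_le_of_nonpos hNr (by norm_num)
      have e2 : (N:ℝ) ^ (-(ω/2)) ≤ 1 := Real.rpow_le_one_of_one_le_of_nonpos hNr (by linarith)
      calc _ ≤ C * (k + l) * N * (1 + 1 + 1) := by
            simp only [Nat.cast_one, Real.one_rpow, one_pow, one_mul]
            gcongr
        _ = _ := by ring
    have hU1 : ∀ R : ℝ, (U a φ R 1)^2 ≤ Ca^2 := by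
      intro R
      have h1 : |U a φ R 1| ≤ Ca := by
        unfold U
        simp only [one_pow, Icc_self, sum_singleton]
        rw [abs_mul]
        calc _ ≤ |a 1| * 1 := mul_le_mul_of_nonneg_left (Real.abs_cos_le_one _) (abs_nonneg _)
          _ ≤ _ := by rw [mul_one]; exact (hCa 1 le_rfl).2
      rw [← sq_abs]
      exact pow_le_pow_left₀ (abs_nonneg _) h1 2
    calc _ ≤ ∑ n ∈ Ioc N N', (2 * (E (c * √((k * n + l : ℕ):ℝ)) - U a φ (c * √((k * n + l : ℕ):ℝ)) 1)^2 +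
            2 * Ca^2) := by
          apply sum_le_sum; intro n _
          have := hU1 (c * √((k * n + l : ℕ):ℝ))
          nlinarith [sq_nonneg (E (c * √((k * n + l : ℕ):ℝ)) - 2 * U a φ (c * √((k * n + l : ℕ):ℝ)) 1)]
      _ ≤ Cm * N := by
          rw [sum_add_distrib, ← mul_sum, sum_const, nsmul_eq_mul, hCm]
          have : ((Ioc N N').card : ℝ) * (2 * Ca^2) ≤ N * (2 * Ca^2) :=
            mul_le_mul_of_nonneg_right hcard (by positivity)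
          linarith
      _ ≤ _ := by
          apply mul_le_mul_of_nonneg_right _ (by positivity)
          have : 0 ≤ Cs := by positivity
          linarith

end Pool.Agent.Q263.PS
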