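import Mathlib
import Pool.Agent.Q263.PS.M2a

/-! Second moments: the model sums. -/

set_option autoImplicit false

open Finset
open Pool.Agent.H383
open Pool.Agent.H383.Gen (Bd U)
open Pool.Agent.H452R2.Win Pool.Agent.H452R2.Om
open Pool.Agent.H469R2.NK
open Pool.Agent.W24.CP

namespace Pool.Agent.Q263.PS

variable {E : ℝ → ℝ} {a : ℕ → ℝ} {φ : ℝ} {w : ℝ → ℂ}

/-- a single cosine -/
lemma cosW {v : ℕ → ℂ} {A : ℝ} (hv : WV v A) {N N' : ℕ} (hN : 1 ≤ N) (hNN' : N ≤ N') (hN' : N' ≤ 2 * N)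
    {θ : ℝ} (hθ : θ ≠ 0) (h : |θ| + 1/|θ| ≤ 2 * (N:ℝ) ^ (1/8:ℝ)) (ψ : ℝ) :
    ‖∑ n ∈ Ioc N N', v n * ((Real.cos (2 * Real.pi * (θ * √(n:ℝ)) - ψ) : ℝ) : ℂ)‖ ≤ A * (N:ℝ) ^ (127/128:ℝ) := by
  have e1 : ∑ n ∈ Ioc N N', v n * ((Real.cos (2 * Real.pi * (θ * √(n:ℝ)) - ψ) : ℝ) : ℂ) =
      (Complex.exp ((-ψ : ℝ) * Complex.I) / 2) * (∑ n ∈ Ioc N N', v n * e (θ * √(n:ℝ))) +
        (Complex.exp ((ψ : ℝ) * Complex.I) / 2) * (∑ n ∈ Ioc N N', v n * e ((-θ) * √(n:ℝ))) := by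
    rw [mul_sum, mul_sum, ← sum_add_distrib]
    apply sum_congr rfl; intro n _
    rw [cos_split]
    ring
  rw [e1]
  have k1 := hv.es N N' hN hNN' hN' θ hθ h
  have k2 := hv.es N N' hN hNN' hN' (-θ) (neg_ne_zero.mpr hθ) (by rw [abs_neg]; exact h)
  have n1 : ‖Complex.exp ((-ψ : ℝ) * Complex.I) / 2‖ = 1/2 := by
    rw [norm_div, Complex.norm_exp_ofReal_mul_I]; norm_num
  have n2 : ‖Complex.exp ((ψ : ℝ) * Complex.I) / 2‖ = 1/2 := by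
    rw [norm_div, Complex.norm_exp_ofReal_mul_I]; norm_num
  refine (norm_add_le _ _).trans ?_
  rw [norm_mul, norm_mul, n1, n2]
  linarith

lemma sqrt_gap {x y : ℕ} (h : x ≠ y) : 1 ≤ |√(x:ℝ) - √(y:ℝ)| * (√(x:ℝ) + √(y:ℝ)) := by
  have h1 : |√(x:ℝ) - √(y:ℝ)| * (√(x:ℝ) + √(y:ℝ)) = |(x:ℝ) - y| := by
    rw [← abs_of_nonneg (by positivity : 0 ≤ √(x:ℝ) + √(y:ℝ)), ← abs_mul]
    congr 1
    have e1 : √(x:ℝ)^2 = x := Real.sq_sqrt (Nat.cast_nonneg x)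
    have e2 : √(y:ℝ)^2 = y := Real.sq_sqrt (Nat.cast_nonneg y)
    nlinarith
  rw [h1]
  have h2 : (1:ℤ) ≤ |(x:ℤ) - y| := Int.one_le_abs (by omega)
  exact_mod_cast h2

/-- the diagonal -/
noncomputable def DM (a : ℕ → ℝ) (k₁ k₂ M : ℕ) : ℝ :=
  1/2 * ∑ m₁ ∈ Icc 1 (M^2), ∑ m₂ ∈ Icc 1 (M^2), if k₁ * m₁ = k₂ * m₂ then a m₁ * a m₂ else 0

lemma model2 {v : ℕ → ℂ} {A : ℝ} (hA : 0 ≤ A) (hv : WV v A) {Ca : ℝ} (hCa : ∀ m : ℕ, 1 ≤ m → |a m| ≤ Ca)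
    {c : ℝ} (hc : 0 < c) {k₁ k₂ : ℕ} (hk₁ : 0 < k₁) (hk₂ : 0 < k₂) (N N' : ℕ) (hN : 1 ≤ N) (hNN' : N ≤ N')
    (hN' : N' ≤ 2 * N) (M : ℕ)
    (hM : (c + 1/c) * ((√(k₁:ℝ) + √(k₂:ℝ)) * M) + 1/c ≤ 2 * (N:ℝ) ^ (1/8:ℝ)) :
    ‖∑ n ∈ Ioc N N', v n * ((U a φ (c * √(k₁:ℝ) * √(n:ℝ)) M * U a φ (c * √(k₂:ℝ) * √(n:ℝ)) M - DM a k₁ k₂ M : ℝ) : ℂ)‖ ≤
      (M:ℝ)^4 * (Ca^2 * (A * (N:ℝ) ^ (127/128:ℝ))) := by
  have hCa0 : 0 ≤ Ca := (abs_nonneg _).trans (hCa 1 le_rfl)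
  -- frequencies
  set θ : ℕ → ℕ → ℝ := fun k m => c * √((k * m : ℕ) : ℝ) with hθ
  have hθU : ∀ (k : ℕ) (n : ℕ), U a φ (c * √(k:ℝ) * √(n:ℝ)) M =
      ∑ m ∈ Icc 1 (M^2), a m * Real.cos (2 * Real.pi * (θ k m * √(n:ℝ)) - φ) := by
    intro k n
    unfold U
    apply sum_congr rfl; intro m _
    have e : c * √(k:ℝ) * √(n:ℝ) * √(m:ℝ) = θ k m * √(n:ℝ) := by
      simp only [hθ]
      push_cast
      rw [Real.sqrt_mul (Nat.cast_nonneg k)]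
      ring
    rw [e]
  -- the terms
  set t : ℕ → ℕ → ℕ → ℝ := fun m₁ m₂ n => a m₁ * a m₂ *
    (1/2 * (if k₁ * m₁ = k₂ * m₂ then 0 else Real.cos (2 * Real.pi * ((θ k₁ m₁ - θ k₂ m₂) * √(n:ℝ)) - 0)) +
      1/2 * Real.cos (2 * Real.pi * ((θ k₁ m₁ + θ k₂ m₂) * √(n:ℝ)) - 2 * φ)) with ht
  have hexp : ∀ n : ℕ, U a φ (c * √(k₁:ℝ) * √(n:ℝ)) M * U a φ (c * √(k₂:ℝ) * √(n:ℝ)) M - DM a k₁ k₂ M =
      ∑ m₁ ∈ Icc 1 (M^2), ∑ m₂ ∈ Icc 1 (M^2), t m₁ m₂ n := by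
    intro n
    rw [hθU, hθU, sum_mul_sum, DM, mul_sum, ← sum_sub_distrib]
    apply sum_congr rfl; intro m₁ _
    rw [mul_sum, ← sum_sub_distrib]
    apply sum_congr rfl; intro m₂ _
    simp only [ht]
    have hcc : ∀ x y : ℝ, Real.cos (x - φ) * Real.cos (y - φ) = 1/2 * Real.cos (x - y) + 1/2 * Real.cos (x + y - 2 * φ) := by
      intro x y
      have h1 : Real.cos (x - y) = Real.cos ((x - φ) - (y - φ)) := by congr 1; ring
      have h2 : Real.cos (x + y - 2 * φ) = Real.cos ((x - φ) + (y - φ)) := by congr 1; ring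
      rw [h1, h2, Real.cos_sub (x - φ) (y - φ), Real.cos_add (x - φ) (y - φ)]
      ring
    have e1 : a m₁ * Real.cos (2 * Real.pi * (θ k₁ m₁ * √(n:ℝ)) - φ) * (a m₂ * Real.cos (2 * Real.pi * (θ k₂ m₂ * √(n:ℝ)) - φ)) =
        a m₁ * a m₂ * (1/2 * Real.cos (2 * Real.pi * ((θ k₁ m₁ - θ k₂ m₂) * √(n:ℝ))) +
          1/2 * Real.cos (2 * Real.pi * ((θ k₁ m₁ + θ k₂ m₂) * √(n:ℝ)) - 2 * φ)) := by
      have h1 := hcc (2 * Real.pi * (θ k₁ m₁ * √(n:ℝ))) (2 * Real.pi * (θ k₂ m₂ * √(n:ℝ)))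
      have h2 : 2 * Real.pi * (θ k₁ m₁ * √(n:ℝ)) - 2 * Real.pi * (θ k₂ m₂ * √(n:ℝ)) =
        2 * Real.pi * ((θ k₁ m₁ - θ k₂ m₂) * √(n:ℝ)) := by ring
      have h3 : 2 * Real.pi * (θ k₁ m₁ * √(n:ℝ)) + 2 * Real.pi * (θ k₂ m₂ * √(n:ℝ)) =
        2 * Real.pi * ((θ k₁ m₁ + θ k₂ m₂) * √(n:ℝ)) := by ring
      rw [h2, h3] at h1
      rw [← h1]
      ring
    rw [e1]
    split_ifs with hd
    · have h0 : θ k₁ m₁ - θ k₂ m₂ = 0 := by simp only [hθ]; rw [hd]; ring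
      rw [h0]
      simp only [zero_mul, mul_zero, Real.cos_zero]
      ring
    · rw [sub_zero]; ring
  have e2 : ∑ n ∈ Ioc N N', v n * ((U a φ (c * √(k₁:ℝ) * √(n:ℝ)) M * U a φ (c * √(k₂:ℝ) * √(n:ℝ)) M - DM a k₁ k₂ M : ℝ) : ℂ) =
      ∑ m₁ ∈ Icc 1 (M^2), ∑ m₂ ∈ Icc 1 (M^2), ∑ n ∈ Ioc N N', v n * ((t m₁ m₂ n : ℝ) : ℂ) := by
    rw [sum_congr rfl (fun n _ => by rw [hexp n])]
    simp only [Complex.ofReal_sum, mul_sum]
    rw [sum_comm]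
    apply sum_congr rfl; intro m₁ _
    rw [sum_comm]
  rw [e2]
  have hN0 : 0 ≤ A * (N:ℝ) ^ (127/128:ℝ) := by positivity
  have hterm : ∀ m₁ ∈ Icc 1 (M^2), ∀ m₂ ∈ Icc 1 (M^2), ‖∑ n ∈ Ioc N N', v n * ((t m₁ m₂ n : ℝ) : ℂ)‖ ≤
      Ca^2 * (A * (N:ℝ) ^ (127/128:ℝ)) := by
    intro m₁ hm₁ m₂ hm₂
    rw [mem_Icc] at hm₁ hm₂
    have hs : ∀ k m : ℕ, 0 < k → 1 ≤ m → m ≤ M^2 → 1 ≤ √((k * m : ℕ) : ℝ) ∧ √((k * m : ℕ) : ℝ) ≤ √(k:ℝ) * M := by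
      intro k m hk h1 h2
      constructor
      · rw [Real.one_le_sqrt]
        exact_mod_cast Nat.mul_pos hk h1
      · push_cast
        rw [Real.sqrt_mul (Nat.cast_nonneg k)]
        apply mul_le_mul_of_nonneg_left _ (Real.sqrt_nonneg _)
        rw [Real.sqrt_le_left (by positivity)]
        exact_mod_cast h2
    obtain ⟨p1, p2⟩ := hs k₁ m₁ hk₁ hm₁.1 hm₁.2
    obtain ⟨q1, q2⟩ := hs k₂ m₂ hk₂ hm₂.1 hm₂.2
    set x := √((k₁ * m₁ : ℕ) : ℝ) with hx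
    set y := √((k₂ * m₂ : ℕ) : ℝ) with hy
    set Z : ℝ := (√(k₁:ℝ) + √(k₂:ℝ)) * M with hZ
    have hxyZ : x + y ≤ Z := by rw [hZ, add_mul]; linarith
    have hZ0 : 0 ≤ Z := by linarith
    have hsum : ‖∑ n ∈ Ioc N N', v n * ((Real.cos (2 * Real.pi * ((θ k₁ m₁ + θ k₂ m₂) * √(n:ℝ)) - 2 * φ) : ℝ) : ℂ)‖ ≤
        A * (N:ℝ) ^ (127/128:ℝ) := by
      have h1 : θ k₁ m₁ + θ k₂ m₂ = c * (x + y) := by simp only [hθ]; ring
      have h2 : 0 < c * (x + y) := by positivity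
      refine cosW hv hN hNN' hN' (by rw [h1]; exact h2.ne') ?_ _
      rw [h1, abs_of_pos h2]
      have h3 : 1/(c * (x + y)) ≤ 1/c := by
        apply div_le_div_of_nonneg_left (by norm_num) hc
        nlinarith
      have h4 : c * (x + y) ≤ (c + 1/c) * Z := by
        have h5 : 0 ≤ (1/c) * Z := by positivity
        nlinarith
      linarith
    have hdiff : ‖∑ n ∈ Ioc N N', v n * (((if k₁ * m₁ = k₂ * m₂ then 0 else
        Real.cos (2 * Real.pi * ((θ k₁ m₁ - θ k₂ m₂) * √(n:ℝ)) - 0)) : ℝ) : ℂ)‖ ≤ A * (N:ℝ) ^ (127/128:ℝ) := by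
      by_cases hd : k₁ * m₁ = k₂ * m₂
      · simp only [if_pos hd, Complex.ofReal_zero, mul_zero, sum_const_zero, norm_zero]
        exact hN0
      · simp only [if_neg hd]
        have h1 : θ k₁ m₁ - θ k₂ m₂ = c * (x - y) := by simp only [hθ]; ring
        have hg : 1 ≤ |x - y| * (x + y) := sqrt_gap hd
        have hxy0 : 0 < |x - y| := by
          by_contra h0
          have : |x - y| = 0 := le_antisymm (not_lt.1 h0) (abs_nonneg _)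
          rw [this, zero_mul] at hg
          linarith
        have h2 : 0 < c * |x - y| := by positivity
        have h3 : |θ k₁ m₁ - θ k₂ m₂| = c * |x - y| := by rw [h1, abs_mul, abs_of_pos hc]
        refine cosW hv hN hNN' hN' (by rw [← abs_pos, h3]; exact h2) ?_ _
        rw [h3]
        have h4 : |x - y| ≤ Z := by
          rw [abs_le]; constructor <;> linarith
        have h5 : 1/(c * |x - y|) ≤ (1/c) * Z := by
          rw [div_le_iff₀ h2]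
          have h6 : 1 ≤ Z * |x - y| := by
            calc 1 ≤ |x - y| * (x + y) := hg
              _ ≤ |x - y| * Z := mul_le_mul_of_nonneg_left hxyZ hxy0.le
              _ = _ := mul_comm _ _
          calc 1 ≤ Z * |x - y| := h6
            _ = (1/c) * Z * (c * |x - y|) := by field_simp
        have h6 : c * |x - y| ≤ c * Z := mul_le_mul_of_nonneg_left h4 hc.le
        have h7 : 0 < 1/c := by positivity
        calc c * |x - y| + 1/(c * |x - y|) ≤ c * Z + (1/c) * Z := add_le_add h6 h5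
          _ = (c + 1/c) * Z := by ring
          _ ≤ _ := by linarith
    have e3 : ∑ n ∈ Ioc N N', v n * ((t m₁ m₂ n : ℝ) : ℂ) = ((a m₁ * a m₂ : ℝ) : ℂ) * (1/2 *
        (∑ n ∈ Ioc N N', v n * (((if k₁ * m₁ = k₂ * m₂ then 0 else
          Real.cos (2 * Real.pi * ((θ k₁ m₁ - θ k₂ m₂) * √(n:ℝ)) - 0)) : ℝ) : ℂ)) + 1/2 *
        (∑ n ∈ Ioc N N', v n * ((Real.cos (2 * Real.pi * ((θ k₁ m₁ + θ k₂ m₂) * √(n:ℝ)) - 2 * φ) : ℝ) : ℂ))) := by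
      rw [mul_sum, mul_sum, ← sum_add_distrib, mul_sum]
      apply sum_congr rfl; intro n _
      simp only [ht, Complex.ofReal_mul, Complex.ofReal_add, Complex.ofReal_div, Complex.ofReal_one,
        Complex.ofReal_ofNat]
      ring
    rw [e3, norm_mul, Complex.norm_real, Real.norm_eq_abs, abs_mul]
    have h8 : |a m₁| * |a m₂| ≤ Ca^2 := by
      rw [pow_two]
      exact mul_le_mul (hCa m₁ hm₁.1) (hCa m₂ hm₂.1) (abs_nonneg _) hCa0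
    apply mul_le_mul h8 _ (norm_nonneg _) (by positivity)
    refine (norm_add_le _ _).trans ?_
    rw [norm_mul, norm_mul]
    have h9 : ‖(1/2:ℂ)‖ = 1/2 := by norm_num
    rw [h9]
    linarith
  refine (norm_sum_le _ _).trans ?_
  calc ∑ m₁ ∈ Icc 1 (M^2), ‖∑ m₂ ∈ Icc 1 (M^2), ∑ n ∈ Ioc N N', v n * ((t m₁ m₂ n : ℝ) : ℂ)‖
      ≤ ∑ m₁ ∈ Icc 1 (M^2), ∑ m₂ ∈ Icc 1 (M^2), Ca^2 * (A * (N:ℝ) ^ (127/128:ℝ)) := by
        apply sum_le_sum; intro m₁ hm₁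
        exact (norm_sum_le _ _).trans (sum_le_sum (fun m₂ hm₂ => hterm m₁ hm₁ m₂ hm₂))
    _ = _ := by
        simp only [sum_const, Nat.card_Icc, nsmul_eq_mul, add_tsub_cancel_right]
        push_cast
        ring

/-- the limit of the diagonal -/
noncomputable def DI (a : ℕ → ℝ) (u v : ℕ) : ℝ := 1/2 * ∑' h : ℕ, a (u * h) * a (v * h)

lemma diag_bd (ha : Bdw a) (ha0 : a 0 = 0) {u v : ℕ} (hu : 0 < u) (hv : 0 < v) :
    ∃ K : ℝ, 0 < K ∧ ∀ h : ℕ, |a (u * h) * a (v * h)| ≤ K * (h:ℝ) ^ (-(5/4):ℝ) := by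
  obtain ⟨C, hC, hb⟩ := ha (1/8) (by norm_num)
  refine ⟨C^2, by positivity, ?_⟩
  intro h
  rcases Nat.eq_zero_or_pos h with rfl | hh
  · rw [mul_zero, ha0, zero_mul, abs_zero]; positivity
  · have hr : (1:ℝ) ≤ h := by exact_mod_cast hh
    have h1 : ∀ k : ℕ, 0 < k → |a (k * h)| ≤ C * (h:ℝ) ^ (-(5/8):ℝ) := by
      intro k hk
      refine (hb (k * h) (Nat.mul_pos hk hh)).trans ?_
      apply mul_le_mul_of_nonneg_left _ hC.le
      rw [show (-(3/4) + 1/8 : ℝ) = -(5/8) by norm_num]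
      apply Real.rpow_le_rpow_of_nonpos (by linarith) _ (by norm_num)
      exact_mod_cast Nat.le_mul_of_pos_left h hk
    rw [abs_mul]
    calc _ ≤ (C * (h:ℝ) ^ (-(5/8):ℝ)) * (C * (h:ℝ) ^ (-(5/8):ℝ)) :=
          mul_le_mul (h1 u hu) (h1 v hv) (abs_nonneg _) (by positivity)
      _ = C^2 * ((h:ℝ) ^ (-(5/8):ℝ) * (h:ℝ) ^ (-(5/8):ℝ)) := by ring
      _ = _ := by rw [← Real.rpow_add (by linarith)]; norm_num

lemma diag_summable (ha : Bdw a) (ha0 : a 0 = 0) {u v : ℕ} (hu : 0 < u) (hv : 0 < v) :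
    Summable (fun h : ℕ => a (u * h) * a (v * h)) := by
  obtain ⟨K, hK, h⟩ := diag_bd ha ha0 hu hv
  refine Summable.of_norm_bounded (g := fun h : ℕ => K * (h:ℝ) ^ (-(5/4):ℝ)) ?_ (fun n => by
    rw [Real.norm_eq_abs]; exact h n)
  exact (Real.summable_nat_rpow.2 (by norm_num)).mul_left K

/-- the diagonal as a sum over the multiples -/
lemma DM_eq (ha0 : a 0 = 0) {k₁ k₂ u v : ℕ} (hk₁ : 0 < k₁) (hk₂ : 0 < k₂) (hu : 0 < u) (hv : 0 < v)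
    (huv : k₁ * u = k₂ * v) (hcop : Nat.Coprime u v) (M : ℕ) :
    DM a k₁ k₂ M = 1/2 * ∑ h ∈ range (M^2 / max u v + 1), a (u * h) * a (v * h) := by
  unfold DM
  congr 1
  have hmax : 0 < max u v := lt_of_lt_of_le hu (le_max_left _ _)
  rw [← sum_product', ← sum_filter]
  have hcross : ∀ m₁ m₂ : ℕ, k₁ * m₁ = k₂ * m₂ ↔ ∃ h, m₁ = u * h ∧ m₂ = v * h := by
    intro m₁ m₂
    constructor
    · intro h
      have h1 : m₁ * v = m₂ * u := by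
        have h2 : (k₁ * k₂) * (m₁ * v) = (k₁ * k₂) * (m₂ * u) := by
          calc (k₁ * k₂) * (m₁ * v) = (k₁ * m₁) * (k₂ * v) := by ring
            _ = (k₂ * m₂) * (k₁ * u) := by rw [h, huv]
            _ = _ := by ring
        exact Nat.eq_of_mul_eq_mul_left (Nat.mul_pos hk₁ hk₂) h2
      have h3 : u ∣ m₁ := hcop.dvd_of_dvd_mul_right (by rw [h1]; exact Dvd.intro_left _ rfl)
      obtain ⟨g, rfl⟩ := h3
      refine ⟨g, rfl, ?_⟩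
      have h4 : u * (v * g) = u * m₂ := by rw [mul_comm u m₂, ← h1]; ring
      exact (Nat.eq_of_mul_eq_mul_left hu h4).symm
    · rintro ⟨h, rfl, rfl⟩
      calc k₁ * (u * h) = (k₁ * u) * h := by ring
        _ = (k₂ * v) * h := by rw [huv]
        _ = _ := by ring
  have e0 : ∑ h ∈ range (M^2 / max u v + 1), a (u * h) * a (v * h) =
      ∑ h ∈ Icc 1 (M^2 / max u v), a (u * h) * a (v * h) := by
    symm
    apply sum_subset
    · intro h hh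
      rw [mem_Icc] at hh; rw [mem_range]; omega
    · intro h hh hh2
      rw [mem_range] at hh
      rw [mem_Icc] at hh2
      have : h = 0 := by omega
      rw [this, mul_zero, ha0, zero_mul]
  rw [e0]
  symm
  apply sum_bij (fun h _ => (u * h, v * h))
  · intro h hh
    rw [mem_Icc] at hh
    rw [mem_filter, mem_product, mem_Icc, mem_Icc]
    have h1 : max u v * h ≤ M^2 := by
      rw [mul_comm]; exact (Nat.le_div_iff_mul_le hmax).1 hh.2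
    have h2 : u * h ≤ max u v * h := Nat.mul_le_mul_right h (le_max_left _ _)
    have h3 : v * h ≤ max u v * h := Nat.mul_le_mul_right h (le_max_right _ _)
    refine ⟨⟨⟨Nat.mul_pos hu hh.1, h2.trans h1⟩, ⟨Nat.mul_pos hv hh.1, h3.trans h1⟩⟩, ?_⟩
    exact (hcross _ _).2 ⟨h, rfl, rfl⟩
  · intro h _ h' _ heq
    simp only [Prod.mk.injEq] at heq
    exact Nat.eq_of_mul_eq_mul_left hu heq.1
  · rintro ⟨m₁, m₂⟩ hm
    rw [mem_filter, mem_product, mem_Icc, mem_Icc] at hm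
    obtain ⟨h, h1, h2⟩ := (hcross m₁ m₂).1 hm.2
    refine ⟨h, ?_, by simp only [h1, h2]⟩
    rw [mem_Icc]
    have h3 : 1 ≤ h := by
      rcases Nat.eq_zero_or_pos h with h0 | h0
      · rw [h0, mul_zero] at h1
        have := hm.1.1.1
        simp only [h1] at this
        omega
      · exact h0
    refine ⟨h3, ?_⟩
    rw [Nat.le_div_iff_mul_le hmax, mul_comm]
    rcases le_total u v with h4 | h4
    · rw [max_eq_right h4, ← h2]; exact hm.1.2.2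
    · rw [max_eq_left h4, ← h1]; exact hm.1.1.2
  · intro h _
    rfl

/-- the speed of convergence -/
lemma DM_lim (ha : Bdw a) (ha0 : a 0 = 0) {k₁ k₂ u v : ℕ} (hk₁ : 0 < k₁) (hk₂ : 0 < k₂) (hu : 0 < u) (hv : 0 < v)
    (huv : k₁ * u = k₂ * v) (hcop : Nat.Coprime u v) :
    ∃ K : ℝ, 0 < K ∧ ∀ M : ℕ, 1 ≤ M → |DM a k₁ k₂ M - DI a u v| ≤ K * (M:ℝ) ^ (-(1/4):ℝ) := by
  obtain ⟨K, hK, hb⟩ := diag_bd ha ha0 hu hv
  have hs := diag_summable ha ha0 hu hv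
  have hz : Summable (fun h : ℕ => (h:ℝ) ^ (-(9/8):ℝ)) := Real.summable_nat_rpow.2 (by norm_num)
  set Z : ℝ := ∑' h : ℕ, (h:ℝ) ^ (-(9/8):ℝ) with hZ
  have hZ0 : 0 ≤ Z := tsum_nonneg fun _ => by positivity
  set m : ℕ := max u v with hm
  have hm0 : 0 < m := lt_of_lt_of_le hu (le_max_left _ _)
  have hmr : (1:ℝ) ≤ m := by exact_mod_cast hm0
  refine ⟨K * Z * (m:ℝ) ^ (1/8:ℝ) + 1, by positivity, ?_⟩
  intro M hM
  have hMr : (1:ℝ) ≤ M := by exact_mod_cast hM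
  rw [DM_eq ha0 hk₁ hk₂ hu hv huv hcop, DI]
  set H : ℕ := M^2 / m + 1 with hH
  have hH0 : 0 < H := Nat.succ_pos _
  have hHr : ((M:ℝ)^2) / m ≤ H := by
    rw [div_le_iff₀ (by linarith)]
    have h1 : M^2 < m * (M^2 / m + 1) := Nat.lt_mul_div_succ _ hm0
    have h2 : M^2 ≤ H * m := by rw [hH, mul_comm]; exact h1.le
    exact_mod_cast h2
  have htail : |∑' h : ℕ, a (u * (h + H)) * a (v * (h + H))| ≤ K * (H:ℝ) ^ (-(1/8):ℝ) * Z := by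
    have hz2 : Summable (fun h : ℕ => ((h + H : ℕ):ℝ) ^ (-(9/8):ℝ)) := (summable_nat_add_iff H).2 hz
    have hb2 : ∀ h : ℕ, ‖a (u * (h + H)) * a (v * (h + H))‖ ≤ K * (H:ℝ) ^ (-(1/8):ℝ) * ((h + H : ℕ):ℝ) ^ (-(9/8):ℝ) := by
      intro h
      rw [Real.norm_eq_abs]
      refine (hb (h + H)).trans ?_
      have hp : (0:ℝ) < ((h + H : ℕ):ℝ) := by exact_mod_cast (by omega : 0 < h + H)
      have h1 : ((h + H : ℕ):ℝ) ^ (-(5/4):ℝ) = ((h + H : ℕ):ℝ) ^ (-(1/8):ℝ) * ((h + H : ℕ):ℝ) ^ (-(9/8):ℝ) := by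
        rw [← Real.rpow_add hp]; norm_num
      have h2 : ((h + H : ℕ):ℝ) ^ (-(1/8):ℝ) ≤ (H:ℝ) ^ (-(1/8):ℝ) := by
        apply Real.rpow_le_rpow_of_nonpos (by exact_mod_cast hH0) _ (by norm_num)
        push_cast; linarith [(Nat.cast_nonneg h : (0:ℝ) ≤ h)]
      rw [h1, mul_assoc]
      apply mul_le_mul_of_nonneg_left _ hK.le
      exact mul_le_mul_of_nonneg_right h2 (by positivity)
    have h3 := tsum_of_norm_bounded (hz2.mul_left (K * (H:ℝ) ^ (-(1/8):ℝ))).hasSum hb2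
    rw [Real.norm_eq_abs] at h3
    refine h3.trans ?_
    rw [tsum_mul_left]
    apply mul_le_mul_of_nonneg_left _ (by positivity)
    rw [hZ, ← hz.sum_add_tsum_nat_add H]
    have : 0 ≤ ∑ h ∈ range H, (h:ℝ) ^ (-(9/8):ℝ) := sum_nonneg fun _ _ => by positivity
    linarith
  have hsplit := hs.sum_add_tsum_nat_add H
  have e1 : 1/2 * ∑ h ∈ range H, a (u * h) * a (v * h) - 1/2 * ∑' h : ℕ, a (u * h) * a (v * h) =
      -(1/2) * ∑' h : ℕ, a (u * (h + H)) * a (v * (h + H)) := by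
    rw [← hsplit]; ring
  rw [e1, abs_mul]
  have h5 : (H:ℝ) ^ (-(1/8):ℝ) ≤ (m:ℝ) ^ (1/8:ℝ) * (M:ℝ) ^ (-(1/4):ℝ) := by
    calc (H:ℝ) ^ (-(1/8):ℝ) ≤ (((M:ℝ)^2) / m) ^ (-(1/8):ℝ) :=
          Real.rpow_le_rpow_of_nonpos (by positivity) hHr (by norm_num)
      _ = _ := by
          rw [Real.div_rpow (by positivity) (by positivity), ← Real.rpow_natCast (M:ℝ) 2,
            ← Real.rpow_mul (by positivity), Real.rpow_neg (by positivity : (0:ℝ) ≤ m)]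
          rw [div_inv_eq_mul, mul_comm]
          norm_num
  have h6 : |(-(1/2):ℝ)| = 1/2 := by rw [abs_neg]; norm_num
  rw [h6]
  have h7 : 0 ≤ (M:ℝ) ^ (-(1/4):ℝ) := by positivity
  calc 1/2 * |∑' h : ℕ, a (u * (h + H)) * a (v * (h + H))| ≤ 1 * |∑' h : ℕ, a (u * (h + H)) * a (v * (h + H))| :=
        mul_le_mul_of_nonneg_right (by norm_num) (abs_nonneg _)
    _ ≤ 1 * (K * ((m:ℝ) ^ (1/8:ℝ) * (M:ℝ) ^ (-(1/4):ℝ)) * Z) := by
        apply mul_le_mul_of_nonneg_left _ (by norm_num)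
        refine htail.trans ?_
        gcongr
    _ = K * Z * (m:ℝ) ^ (1/8:ℝ) * (M:ℝ) ^ (-(1/4):ℝ) := by ring
    _ ≤ _ := by
        apply mul_le_mul_of_nonneg_right _ h7
        linarith

end Pool.Agent.Q263.PS
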