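import Mathlib
import Pool.Agent.Q263.PS.M2b

/-! Second moments: the block bound. -/

set_option autoImplicit false

open Finset
open Pool.Agent.H383
open Pool.Agent.H383.Gen (Bd U)
open Pool.Agent.H452R2.Win Pool.Agent.H452R2.Om
open Pool.Agent.H469R2.NK
open Pool.Agent.W24.CP

namespace Pool.Agent.Q263.PS

variable {E : ℝ → ℝ} {a : ℕ → ℝ} {φ : ℝ} {w : ℝ → ℂ}

/-- Cauchy-Schwarz for a difference of products -/
lemma prod_diff (S : Finset ℕ) (g : ℕ → ℂ) (e₁ e₂ V₁ V₂ : ℕ → ℝ) {L P Q : ℝ} (hL : 0 ≤ L) (hP : 0 ≤ P) (hQ : 0 ≤ Q)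
    (hg : ∀ n ∈ S, ‖g n‖ ≤ L) (h1 : ∑ n ∈ S, (e₁ n - V₁ n)^2 ≤ P) (h2 : ∑ n ∈ S, (e₂ n - V₂ n)^2 ≤ P)
    (h3 : ∑ n ∈ S, (e₂ n)^2 ≤ Q) (h4 : ∑ n ∈ S, (V₁ n)^2 ≤ Q) :
    ‖∑ n ∈ S, g n * ((e₁ n * e₂ n - V₁ n * V₂ n : ℝ) : ℂ)‖ ≤ 2 * L * √(P * Q) := by
  have cs : ∀ f h : ℕ → ℝ, ∑ n ∈ S, (f n)^2 ≤ P → ∑ n ∈ S, (h n)^2 ≤ Q → ∑ n ∈ S, |f n| * |h n| ≤ √(P * Q) := by
    intro f h hf hh
    apply Real.le_sqrt_of_sq_le
    refine (sum_mul_sq_le_sq_mul_sq _ _ _).trans ?_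
    simp only [sq_abs]
    exact mul_le_mul hf hh (sum_nonneg fun _ _ => sq_nonneg _) hP
  have k1 := cs (fun n => e₁ n - V₁ n) e₂ h1 h3
  have k2 := cs (fun n => e₂ n - V₂ n) V₁ h2 h4
  refine (norm_sum_le _ _).trans ?_
  calc ∑ n ∈ S, ‖g n * ((e₁ n * e₂ n - V₁ n * V₂ n : ℝ) : ℂ)‖
      ≤ ∑ n ∈ S, L * (|e₁ n - V₁ n| * |e₂ n| + |e₂ n - V₂ n| * |V₁ n|) := by
        apply sum_le_sum; intro n hn
        rw [norm_mul, Complex.norm_real, Real.norm_eq_abs]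
        apply mul_le_mul (hg n hn) _ (abs_nonneg _) hL
        have : e₁ n * e₂ n - V₁ n * V₂ n = (e₁ n - V₁ n) * e₂ n + (e₂ n - V₂ n) * V₁ n := by ring
        rw [this, ← abs_mul, ← abs_mul]
        exact abs_add_le _ _
    _ = L * (∑ n ∈ S, |e₁ n - V₁ n| * |e₂ n| + ∑ n ∈ S, |e₂ n - V₂ n| * |V₁ n|) := by
        rw [← sum_add_distrib, mul_sum]
    _ ≤ L * (√(P * Q) + √(P * Q)) := mul_le_mul_of_nonneg_left (add_le_add k1 k2) hL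
    _ = _ := by ring

/-- the block bound -/
theorem m2_block (ha : Bdw a) (ha0 : a 0 = 0) (hw : GW.Wt w) {κ₁ κ₂ : ℝ} (hS : SandW E a φ w κ₁ κ₂)
    {c : ℝ} (hc : 0 < c) {A : ℝ} (hA : 0 < A) :
    ∃ δ : ℝ, 0 < δ ∧ δ ≤ 1/8 ∧ ∀ (k₁ k₂ l₁ l₂ u v : ℕ), 0 < k₁ → 0 < k₂ → 0 < u → 0 < v → k₁ * u = k₂ * v →
      Nat.Coprime u v → ∃ C : ℝ, 0 < C ∧ ∀ g : ℕ → ℂ, WV g A → ∀ N N' : ℕ, 1 ≤ N → N ≤ N' → N' ≤ 2 * N →
      ‖∑ n ∈ Ioc N N', g n * ((E (c * √((k₁ * n + l₁ : ℕ):ℝ)) * E (c * √((k₂ * n + l₂ : ℕ):ℝ)) - DI a u v : ℝ) : ℂ)‖ ≤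
        C * (N:ℝ) ^ (1 - δ) := by
  obtain ⟨δ, hδ0, hδ1, hap⟩ := ms_ap ha ha0 hw hS hc
  obtain ⟨Ca, hCa0, hCa⟩ := a_sqrt ha.Bd
  refine ⟨δ, hδ0, by linarith, ?_⟩
  intro k₁ k₂ l₁ l₂ u v hk₁ hk₂ hu hv huv hcop
  obtain ⟨C1, hC1, N1, hN1, hm1⟩ := hap k₁ l₁ hk₁
  obtain ⟨C2, hC2, N2, hN2, hm2⟩ := hap k₂ l₂ hk₂
  obtain ⟨K, hK, hDM⟩ := DM_lim ha ha0 hk₁ hk₂ hu hv huv hcop
  have ev1 : ∀ᶠ N : ℕ in Filter.atTop, (c + 1/c) * (√(k₁:ℝ) + √(k₂:ℝ)) ≤ (N:ℝ) ^ (1/16:ℝ) :=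
    (((tendsto_rpow_atTop (by norm_num : (0:ℝ) < 1/16)).comp tendsto_natCast_atTop_atTop).eventually_ge_atTop _)
  have ev2 : ∀ᶠ N : ℕ in Filter.atTop, 1/c ≤ (N:ℝ) ^ (1/16:ℝ) :=
    (((tendsto_rpow_atTop (by norm_num : (0:ℝ) < 1/16)).comp tendsto_natCast_atTop_atTop).eventually_ge_atTop _)
  obtain ⟨N3, hN3⟩ := Filter.eventually_atTop.mp (ev1.and ev2)
  set N0 : ℕ := max (max N1 N2) N3 with hN0
  set D : ℝ := DI a u v with hD
  set f : ℕ → ℝ := fun n => E (c * √((k₁ * n + l₁ : ℕ):ℝ)) * E (c * √((k₂ * n + l₂ : ℕ):ℝ)) - D with hf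
  set B0 : ℝ := ∑ n ∈ Ioc 0 (2 * N0), (1 + Real.log n) * |f n| with hB0
  have hB00 : 0 ≤ B0 := sum_nonneg fun n hn => by
    rw [mem_Ioc] at hn
    have : 0 ≤ Real.log n := Real.log_nonneg (by exact_mod_cast hn.1)
    positivity
  -- the constant for the logarithm
  set CL : ℝ := 1 + 4 / δ with hCL
  have hCL0 : 0 < CL := by positivity
  have hlogb : ∀ N : ℕ, 1 ≤ N → 1 + Real.log (2 * N) ≤ CL * (N:ℝ) ^ δ := by
    intro N hN
    have hN0 : (1:ℝ) ≤ N := by exact_mod_cast hN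
    have h1 : Real.log (2 * N) ≤ (2 * N) ^ δ / δ := Real.log_le_rpow_div (by positivity) hδ0
    have h2 : (2 * (N:ℝ)) ^ δ ≤ 2 * (N:ℝ) ^ δ := by
      rw [Real.mul_rpow (by norm_num) (by positivity)]
      apply mul_le_mul_of_nonneg_right _ (by positivity)
      calc (2:ℝ) ^ δ ≤ (2:ℝ) ^ (1:ℝ) := Real.rpow_le_rpow_of_exponent_le (by norm_num) (by linarith)
        _ = 2 := by norm_num
    have h3 : 1 ≤ (N:ℝ) ^ δ := Real.one_le_rpow hN0 hδ0.le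
    have h4 : (2 * (N:ℝ)) ^ δ / δ ≤ 2 * (N:ℝ) ^ δ / δ := div_le_div_of_nonneg_right h2 hδ0.le
    have h5 : 2 * (N:ℝ) ^ δ / δ = (2/δ) * (N:ℝ) ^ δ := by ring
    have h6 : (2/δ) * (N:ℝ) ^ δ ≤ (4/δ) * (N:ℝ) ^ δ := by
      apply mul_le_mul_of_nonneg_right _ (by positivity)
      apply div_le_div_of_nonneg_right (by norm_num) hδ0.le
    rw [hCL, add_mul, one_mul]
    linarith
  set C0 : ℝ := C1 + C2 with hC0
  have hC00 : 0 < C0 := by positivity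
  refine ⟨CL * (4 * C0) + Ca^2 * A + 2 * K * CL + B0, by positivity, ?_⟩
  intro g hg N N' hN hNN' hN'
  have hNr : (1:ℝ) ≤ N := by exact_mod_cast hN
  have hNpos : (0:ℝ) < N := by linarith
  have hpow1 : 1 ≤ (N:ℝ) ^ (1 - δ) := Real.one_le_rpow hNr (by linarith)
  by_cases hbig : N0 ≤ N
  swap
  · push Not at hbig
    have h1 : ‖∑ n ∈ Ioc N N', g n * ((f n : ℝ) : ℂ)‖ ≤ B0 := by
      refine (norm_sum_le _ _).trans ?_
      calc ∑ n ∈ Ioc N N', ‖g n * ((f n : ℝ) : ℂ)‖ ≤ ∑ n ∈ Ioc N N', (1 + Real.log n) * |f n| := by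
            apply sum_le_sum; intro n hn
            rw [mem_Ioc] at hn
            rw [norm_mul, Complex.norm_real, Real.norm_eq_abs]
            exact mul_le_mul_of_nonneg_right (hg.bd n (by omega)) (abs_nonneg _)
        _ ≤ B0 := by
            apply sum_le_sum_of_subset_of_nonneg
            · intro n hn
              rw [mem_Ioc] at hn ⊢
              omega
            · intro n hn _
              rw [mem_Ioc] at hn
              have : 0 ≤ Real.log n := Real.log_nonneg (by exact_mod_cast hn.1)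
              positivity
    have h2 : 0 ≤ CL * (4 * C0) + Ca^2 * A + 2 * K * CL := by positivity
    calc _ ≤ B0 := h1
      _ ≤ (CL * (4 * C0) + Ca^2 * A + 2 * K * CL + B0) * 1 := by linarith
      _ ≤ _ := mul_le_mul_of_nonneg_left hpow1 (by positivity)
  · have hNN1 : N1 ≤ N := le_trans (le_trans (le_max_left _ _) (le_max_left _ _)) hbig
    have hNN2 : N2 ≤ N := le_trans (le_trans (le_max_right _ _) (le_max_left _ _)) hbig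
    have hNN3 : N3 ≤ N := le_trans (le_max_right _ _) hbig
    obtain ⟨g1, g2⟩ := hN3 N hNN3
    obtain ⟨a1, b1⟩ := hm1 N N' hNN1 hN'
    obtain ⟨a2, b2⟩ := hm2 N N' hNN2 hN'
    set x : ℝ := (N:ℝ) ^ (1/1024:ℝ) with hx
    have hx1 : 1 ≤ x := Real.one_le_rpow hNr (by norm_num)
    set M : ℕ := ⌊x⌋₊ with hM
    have hM1 : 1 ≤ M := by rw [hM, Nat.one_le_floor_iff]; exact hx1
    have hMx : (M:ℝ) ≤ x := Nat.floor_le (by linarith)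
    have hM1r : (1:ℝ) ≤ M := by exact_mod_cast hM1
    have hxM : x / 2 ≤ M := by
      have h1 := Nat.lt_floor_add_one x
      rw [← hM] at h1
      linarith
    -- weights
    have hgL : ∀ n ∈ Ioc N N', ‖g n‖ ≤ CL * (N:ℝ) ^ δ := by
      intro n hn
      rw [mem_Ioc] at hn
      refine (hg.bd n (by omega)).trans (le_trans ?_ (hlogb N hN))
      have : Real.log n ≤ Real.log (2 * N) := by
        apply Real.log_le_log (by exact_mod_cast (by omega : 0 < n))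
        exact_mod_cast hn.2.trans hN'
      linarith
    set e₁ : ℕ → ℝ := fun n => E (c * √((k₁ * n + l₁ : ℕ):ℝ)) with he₁
    set e₂ : ℕ → ℝ := fun n => E (c * √((k₂ * n + l₂ : ℕ):ℝ)) with he₂
    set V₁ : ℕ → ℝ := fun n => U a φ (c * √(k₁:ℝ) * √(n:ℝ)) M with hV₁
    set V₂ : ℕ → ℝ := fun n => U a φ (c * √(k₂:ℝ) * √(n:ℝ)) M with hV₂
    have hp4 : (N:ℝ) ^ (1 - 4 * δ) ≤ N := by
      calc (N:ℝ) ^ (1 - 4 * δ) ≤ (N:ℝ) ^ (1:ℝ) := Real.rpow_le_rpow_of_exponent_le hNr (by linarith)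
        _ = N := Real.rpow_one _
    have s1 : ∑ n ∈ Ioc N N', (e₁ n - V₁ n)^2 ≤ C0 * (N:ℝ) ^ (1 - 4 * δ) :=
      a1.trans (mul_le_mul_of_nonneg_right (by rw [hC0]; linarith) (by positivity))
    have s2 : ∑ n ∈ Ioc N N', (e₂ n - V₂ n)^2 ≤ C0 * (N:ℝ) ^ (1 - 4 * δ) :=
      a2.trans (mul_le_mul_of_nonneg_right (by rw [hC0]; linarith) (by positivity))
    have s3 : ∑ n ∈ Ioc N N', (e₂ n)^2 ≤ 4 * C0 * N :=
      b2.trans (mul_le_mul_of_nonneg_right (by rw [hC0]; linarith) (by positivity))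
    have s4 : ∑ n ∈ Ioc N N', (V₁ n)^2 ≤ 4 * C0 * N := by
      calc _ ≤ ∑ n ∈ Ioc N N', (2 * (e₁ n)^2 + 2 * (e₁ n - V₁ n)^2) := by
            apply sum_le_sum; intro n _
            nlinarith [sq_nonneg (2 * e₁ n - V₁ n)]
        _ = 2 * ∑ n ∈ Ioc N N', (e₁ n)^2 + 2 * ∑ n ∈ Ioc N N', (e₁ n - V₁ n)^2 := by
            rw [sum_add_distrib, ← mul_sum, ← mul_sum]
        _ ≤ 2 * (C1 * N) + 2 * (C0 * N) := by
            have : C0 * (N:ℝ) ^ (1 - 4 * δ) ≤ C0 * N := mul_le_mul_of_nonneg_left hp4 hC00.le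
            have b1' : ∑ n ∈ Ioc N N', (e₁ n)^2 ≤ C1 * N := b1
            linarith
        _ ≤ _ := by
            have : C1 * (N:ℝ) ≤ C0 * N := mul_le_mul_of_nonneg_right (by rw [hC0]; linarith) hNpos.le
            linarith
    have t1 := prod_diff (Ioc N N') g e₁ e₂ V₁ V₂ (L := CL * (N:ℝ) ^ δ) (by positivity) (by positivity)
      (by positivity) hgL s1 s2 s3 s4
    have t1' : 2 * (CL * (N:ℝ) ^ δ) * √(C0 * (N:ℝ) ^ (1 - 4 * δ) * (4 * C0 * N)) = CL * (4 * C0) * (N:ℝ) ^ (1 - δ) := by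
      have h1 : C0 * (N:ℝ) ^ (1 - 4 * δ) * (4 * C0 * N) = (2 * C0 * (N:ℝ) ^ (1 - 2 * δ))^2 := by
        have h2 : ((N:ℝ) ^ (1 - 2 * δ))^2 = (N:ℝ) ^ (1 - 4 * δ) * N := by
          rw [← Real.rpow_natCast, ← Real.rpow_mul hNpos.le]
          nth_rewrite 3 [← Real.rpow_one (N:ℝ)]
          rw [← Real.rpow_add hNpos]
          congr 1; push_cast; ring
        rw [mul_pow, h2]; ring
      rw [h1, Real.sqrt_sq (by positivity)]
      have h3 : (N:ℝ) ^ δ * (N:ℝ) ^ (1 - 2 * δ) = (N:ℝ) ^ (1 - δ) := by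
        rw [← Real.rpow_add hNpos]; congr 1; ring
      rw [← h3]; ring
    rw [t1'] at t1
    have t2 := model2 (a := a) (φ := φ) hA.le hg (fun m hm => (hCa m hm).2) hc hk₁ hk₂ N N' hN hNN' hN' M (by
      have h2 : x ≤ (N:ℝ) ^ (1/16:ℝ) := Real.rpow_le_rpow_of_exponent_le hNr (by norm_num)
      have h3 : (N:ℝ) ^ (1/16:ℝ) * (N:ℝ) ^ (1/16:ℝ) = (N:ℝ) ^ (1/8:ℝ) := by
        rw [← Real.rpow_add hNpos]; norm_num
      have h4 : (N:ℝ) ^ (1/16:ℝ) ≤ (N:ℝ) ^ (1/8:ℝ) := Real.rpow_le_rpow_of_exponent_le hNr (by norm_num)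
      calc (c + 1/c) * ((√(k₁:ℝ) + √(k₂:ℝ)) * M) + 1/c = ((c + 1/c) * (√(k₁:ℝ) + √(k₂:ℝ))) * M + 1/c := by ring
        _ ≤ (N:ℝ) ^ (1/16:ℝ) * (N:ℝ) ^ (1/16:ℝ) + (N:ℝ) ^ (1/16:ℝ) := by
            apply add_le_add _ g2
            exact mul_le_mul g1 (hMx.trans h2) (by positivity) (by positivity)
        _ ≤ _ := by rw [h3]; linarith)
    have t2' : (M:ℝ)^4 * (Ca^2 * (A * (N:ℝ) ^ (127/128:ℝ))) ≤ Ca^2 * A * (N:ℝ) ^ (1 - δ) := by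
      have h2 : (M:ℝ)^4 ≤ (N:ℝ) ^ (1/256:ℝ) := by
        calc (M:ℝ)^4 ≤ x^4 := pow_le_pow_left₀ (by linarith) hMx 4
          _ = _ := by rw [hx, ← Real.rpow_natCast, ← Real.rpow_mul hNpos.le]; norm_num
      calc (M:ℝ)^4 * (Ca^2 * (A * (N:ℝ) ^ (127/128:ℝ))) ≤ (N:ℝ) ^ (1/256:ℝ) * (Ca^2 * (A * (N:ℝ) ^ (127/128:ℝ))) := by gcongr
        _ = Ca^2 * A * ((N:ℝ) ^ (1/256:ℝ) * (N:ℝ) ^ (127/128:ℝ)) := by ring
        _ = Ca^2 * A * (N:ℝ) ^ (255/256:ℝ) := by rw [← Real.rpow_add hNpos]; norm_num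
        _ ≤ _ := by
            apply mul_le_mul_of_nonneg_left _ (by positivity)
            apply Real.rpow_le_rpow_of_exponent_le hNr
            linarith
    have t3 : ‖∑ n ∈ Ioc N N', g n * ((DM a k₁ k₂ M - D : ℝ) : ℂ)‖ ≤ 2 * K * CL * (N:ℝ) ^ (1 - δ) := by
      have hd := hDM M hM1
      have hd2 : (M:ℝ) ^ (-(1/4):ℝ) ≤ 2 * (N:ℝ) ^ (-(2 * δ)) := by
        calc (M:ℝ) ^ (-(1/4):ℝ) ≤ (x/2) ^ (-(1/4):ℝ) := Real.rpow_le_rpow_of_nonpos (by linarith) hxM (by norm_num)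
          _ = x ^ (-(1/4):ℝ) * 2 ^ (1/4:ℝ) := by
              rw [Real.div_rpow (by linarith) (by norm_num), Real.rpow_neg (by norm_num : (0:ℝ) ≤ 2)]
              field_simp
          _ ≤ x ^ (-(1/4):ℝ) * 2 := by
              apply mul_le_mul_of_nonneg_left _ (by positivity)
              calc (2:ℝ) ^ (1/4:ℝ) ≤ (2:ℝ) ^ (1:ℝ) := Real.rpow_le_rpow_of_exponent_le (by norm_num) (by norm_num)
                _ = 2 := by norm_num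
          _ = 2 * (N:ℝ) ^ (-(1/4096):ℝ) := by
              rw [hx, ← Real.rpow_mul hNpos.le, mul_comm]
              norm_num
          _ ≤ _ := by
              apply mul_le_mul_of_nonneg_left _ (by norm_num)
              apply Real.rpow_le_rpow_of_exponent_le hNr
              linarith
      have hcard : ((Ioc N N').card : ℝ) ≤ N := by
        rw [Nat.card_Ioc]; exact_mod_cast (by omega : N' - N ≤ N)
      refine (norm_sum_le _ _).trans ?_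
      calc ∑ n ∈ Ioc N N', ‖g n * ((DM a k₁ k₂ M - D : ℝ) : ℂ)‖
          ≤ ∑ n ∈ Ioc N N', (CL * (N:ℝ) ^ δ) * (K * (2 * (N:ℝ) ^ (-(2 * δ)))) := by
            apply sum_le_sum; intro n hn
            rw [norm_mul, Complex.norm_real, Real.norm_eq_abs]
            apply mul_le_mul (hgL n hn) _ (abs_nonneg _) (by positivity)
            exact hd.trans (mul_le_mul_of_nonneg_left hd2 hK.le)
        _ = ((Ioc N N').card : ℝ) * ((CL * (N:ℝ) ^ δ) * (K * (2 * (N:ℝ) ^ (-(2 * δ))))) := by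
            rw [sum_const, nsmul_eq_mul]
        _ ≤ (N:ℝ) * ((CL * (N:ℝ) ^ δ) * (K * (2 * (N:ℝ) ^ (-(2 * δ))))) := by
            apply mul_le_mul_of_nonneg_right hcard (by positivity)
        _ = 2 * K * CL * ((N:ℝ) ^ (1:ℝ) * (N:ℝ) ^ δ * (N:ℝ) ^ (-(2 * δ))) := by rw [Real.rpow_one]; ring
        _ = _ := by
            rw [← Real.rpow_add hNpos, ← Real.rpow_add hNpos]
            congr 2; ring
    have hsplit : ∑ n ∈ Ioc N N', g n * ((e₁ n * e₂ n - D : ℝ) : ℂ) =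
        ∑ n ∈ Ioc N N', g n * ((e₁ n * e₂ n - V₁ n * V₂ n : ℝ) : ℂ) +
        ∑ n ∈ Ioc N N', g n * ((V₁ n * V₂ n - DM a k₁ k₂ M : ℝ) : ℂ) +
        ∑ n ∈ Ioc N N', g n * ((DM a k₁ k₂ M - D : ℝ) : ℂ) := by
      rw [← sum_add_distrib, ← sum_add_distrib]
      apply sum_congr rfl; intro n _
      push_cast; ring
    rw [hsplit]
    refine (norm_add_le _ _).trans ?_
    have h9 := norm_add_le (∑ n ∈ Ioc N N', g n * ((e₁ n * e₂ n - V₁ n * V₂ n : ℝ) : ℂ))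
      (∑ n ∈ Ioc N N', g n * ((V₁ n * V₂ n - DM a k₁ k₂ M : ℝ) : ℂ))
    have h10 : 0 ≤ B0 * (N:ℝ) ^ (1 - δ) := by positivity
    have h11 : ‖∑ n ∈ Ioc N N', g n * ((V₁ n * V₂ n - DM a k₁ k₂ M : ℝ) : ℂ)‖ ≤ Ca^2 * A * (N:ℝ) ^ (1 - δ) :=
      t2.trans t2'
    rw [add_mul, add_mul, add_mul]
    linarith

/-- from the blocks to initial segments -/
theorem m2_total (ha : Bdw a) (ha0 : a 0 = 0) (hw : GW.Wt w) {κ₁ κ₂ : ℝ} (hS : SandW E a φ w κ₁ κ₂)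
    {c : ℝ} (hc : 0 < c) {A : ℝ} (hA : 0 < A) :
    ∃ δ : ℝ, 0 < δ ∧ δ ≤ 1/8 ∧ ∀ (k₁ k₂ l₁ l₂ u v : ℕ), 0 < k₁ → 0 < k₂ → 0 < u → 0 < v → k₁ * u = k₂ * v →
      Nat.Coprime u v → ∃ C : ℝ, 0 < C ∧ ∀ g : ℕ → ℂ, WV g A → ∀ N : ℕ, 1 ≤ N →
      ‖∑ n ∈ Icc 1 N, g n * ((E (c * √((k₁ * n + l₁ : ℕ):ℝ)) * E (c * √((k₂ * n + l₂ : ℕ):ℝ)) - DI a u v : ℝ) : ℂ)‖ ≤
        C * (N:ℝ) ^ (1 - δ) := by
  obtain ⟨δ, hδ, hδ1, h⟩ := m2_block ha ha0 hw hS hc hA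
  refine ⟨δ, hδ, hδ1, ?_⟩
  intro k₁ k₂ l₁ l₂ u v hk₁ hk₂ hu hv huv hcop
  obtain ⟨C, hC, h⟩ := h k₁ k₂ l₁ l₂ u v hk₁ hk₂ hu hv huv hcop
  set f : ℕ → ℝ := fun n => E (c * √((k₁ * n + l₁ : ℕ):ℝ)) * E (c * √((k₂ * n + l₂ : ℕ):ℝ)) - DI a u v with hf
  refine ⟨7 * C + |f 1|, by positivity, ?_⟩
  intro g hg N hN
  have h1 := total_of_block (fun n => g n * ((f n : ℝ) : ℂ)) hC.le hδ.le (by linarith) (h g hg) N hN
  have hg1 : ‖g 1 * ((f 1 : ℝ) : ℂ)‖ ≤ |f 1| := by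
    have h2 := hg.bd 1 le_rfl
    rw [Nat.cast_one, Real.log_one, add_zero] at h2
    rw [norm_mul, Complex.norm_real, Real.norm_eq_abs]
    exact mul_le_of_le_one_left (abs_nonneg _) h2
  refine h1.trans ?_
  apply mul_le_mul_of_nonneg_right _ (by positivity)
  linarith

/-- the weight `1` -/
lemma wv_one : ∃ A : ℝ, 0 < A ∧ ∀ α : ℝ, WV (fun n => e (α * n)) A := by
  refine ⟨1000, by norm_num, ?_⟩
  intro α
  refine ⟨?_, ?_⟩
  · intro n hn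
    have hn1 : (1:ℝ) ≤ n := by exact_mod_cast hn
    rw [norm_e]
    linarith [Real.log_nonneg hn1]
  · intro N N' hN hNN' hN' θ hθ hθN
    have hNr : (1:ℝ) ≤ N := by exact_mod_cast hN
    have hNpos : (0:ℝ) < N := by linarith
    have h1 := kerIabs hθ α N N' (by omega)
    have e1 : ∑ n ∈ Ioc N N', e (α * n) * e (θ * √(n:ℝ)) = ∑ n ∈ Ioc N N', e (θ * √(n:ℝ) + α * n) := by
      apply sum_congr rfl; intro n _
      rw [e_add, mul_comm]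
    rw [e1]
    have hθ0 : 0 < |θ| := abs_pos.2 hθ
    have h2 : |θ| ≤ 2 * (N:ℝ) ^ (1/8:ℝ) := by
      have : 0 < 1/|θ| := by positivity
      linarith
    have h3 : 1/|θ| ≤ 2 * (N:ℝ) ^ (1/8:ℝ) := by linarith
    set s : ℝ := √((N + 1 : ℕ):ℝ) with hs
    have hs1 : 1 ≤ s := by rw [hs, Real.one_le_sqrt]; push_cast; linarith
    have hs2 : s^2 = N + 1 := by rw [hs, Real.sq_sqrt (by positivity)]; push_cast; ring
    have hs3 : s^3 ≤ 4 * (N:ℝ) ^ (3/2:ℝ) := by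
      have h4 : s ≤ 2 * (N:ℝ) ^ (1/2:ℝ) := by
        rw [hs, ← Real.sqrt_eq_rpow, Real.sqrt_le_left (by positivity), mul_pow, Real.sq_sqrt hNpos.le]
        push_cast; linarith
      calc s^3 = s^2 * s := by ring
        _ ≤ (2 * N) * (2 * (N:ℝ) ^ (1/2:ℝ)) := by
            apply mul_le_mul _ h4 (by linarith) (by positivity)
            rw [hs2]; linarith
        _ = 4 * ((N:ℝ) ^ (1:ℝ) * (N:ℝ) ^ (1/2:ℝ)) := by rw [Real.rpow_one]; ring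
        _ = _ := by rw [← Real.rpow_add hNpos]; norm_num
    have hs4 : s ≤ s^3 := by nlinarith [sq_nonneg (s - 1), mul_self_nonneg (s - 1)]
    have hlog : 1 + Real.log ((N + 1 : ℕ):ℝ) ≤ 17 * (N:ℝ) ^ (1/16:ℝ) * 2 := by
      have h5 := Real.log_le_rpow_div (by positivity : (0:ℝ) ≤ ((N + 1 : ℕ):ℝ)) (by norm_num : (0:ℝ) < 1/16)
      have h6 : ((N + 1 : ℕ):ℝ) ^ (1/16:ℝ) ≤ 2 * (N:ℝ) ^ (1/16:ℝ) := by
        calc ((N + 1 : ℕ):ℝ) ^ (1/16:ℝ) ≤ (2 * (N:ℝ)) ^ (1/16:ℝ) := by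
              apply Real.rpow_le_rpow (by positivity) _ (by norm_num)
              push_cast; linarith
          _ = 2 ^ (1/16:ℝ) * (N:ℝ) ^ (1/16:ℝ) := Real.mul_rpow (by norm_num) hNpos.le
          _ ≤ 2 * (N:ℝ) ^ (1/16:ℝ) := by
              apply mul_le_mul_of_nonneg_right _ (by positivity)
              calc (2:ℝ) ^ (1/16:ℝ) ≤ (2:ℝ) ^ (1:ℝ) := Real.rpow_le_rpow_of_exponent_le (by norm_num) (by norm_num)
                _ = 2 := by norm_num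
      have h7 : 1 ≤ (N:ℝ) ^ (1/16:ℝ) := Real.one_le_rpow hNr (by norm_num)
      have h8 : ((N + 1 : ℕ):ℝ) ^ (1/16:ℝ) / (1/16) = 16 * ((N + 1 : ℕ):ℝ) ^ (1/16:ℝ) := by ring
      rw [h8] at h5
      linarith
    have hsq : ‖∑ n ∈ Ioc N N', e (θ * √(n:ℝ) + α * n)‖^2 ≤ (1000 * (N:ℝ) ^ (127/128:ℝ))^2 := by
      refine h1.trans ?_
      have h9 : s^3/|θ| + |θ| * s ≤ 16 * ((N:ℝ) ^ (3/2:ℝ) * (N:ℝ) ^ (1/8:ℝ)) := by
        have h10 : s^3/|θ| ≤ (4 * (N:ℝ) ^ (3/2:ℝ)) * (2 * (N:ℝ) ^ (1/8:ℝ)) := by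
          calc s^3/|θ| = s^3 * (1/|θ|) := by ring
            _ ≤ _ := mul_le_mul hs3 h3 (by positivity) (by positivity)
        have h11 : |θ| * s ≤ (4 * (N:ℝ) ^ (3/2:ℝ)) * (2 * (N:ℝ) ^ (1/8:ℝ)) := by
          rw [mul_comm |θ| s]
          exact mul_le_mul (hs4.trans hs3) h2 (abs_nonneg _) (by positivity)
        linarith
      calc 524 * ((s^3/|θ| + |θ| * s) * (1 + Real.log ((N + 1 : ℕ):ℝ)))
          ≤ 524 * ((16 * ((N:ℝ) ^ (3/2:ℝ) * (N:ℝ) ^ (1/8:ℝ))) * (17 * (N:ℝ) ^ (1/16:ℝ) * 2)) := by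
            apply mul_le_mul_of_nonneg_left _ (by norm_num)
            apply mul_le_mul h9 hlog _ (by positivity)
            have : 0 ≤ Real.log ((N + 1 : ℕ):ℝ) := Real.log_nonneg (by push_cast; linarith)
            linarith
        _ = 285056 * ((N:ℝ) ^ (3/2:ℝ) * (N:ℝ) ^ (1/8:ℝ) * (N:ℝ) ^ (1/16:ℝ)) := by ring
        _ = 285056 * (N:ℝ) ^ (27/16:ℝ) := by
            rw [← Real.rpow_add hNpos, ← Real.rpow_add hNpos]; norm_num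
        _ ≤ 1000000 * (N:ℝ) ^ (127/64:ℝ) := by
            apply mul_le_mul (by norm_num) _ (by positivity) (by norm_num)
            exact Real.rpow_le_rpow_of_exponent_le hNr (by norm_num)
        _ = _ := by
            rw [mul_pow, ← Real.rpow_natCast ((N:ℝ) ^ (127/128:ℝ)), ← Real.rpow_mul hNpos.le]
            norm_num
    exact (le_abs_self _).trans (abs_le_of_sq_le_sq hsq (by positivity))

end Pool.Agent.Q263.PS
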