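import Mathlib
import Pool.Agent.Q263.PS.M2c

/-! Second moments: residue classes and primes. -/

set_option autoImplicit false

open Finset
open Pool.Agent.H383
open Pool.Agent.H383.Gen (Bd U)
open Pool.Agent.H452R2.Win Pool.Agent.H452R2.Om
open Pool.Agent.H469R2.NK
open Pool.Agent.W24.CP

namespace Pool.Agent.Q263.PS

/-- residue classes and primes, exponent `1 - δ` -/
theorem mainQ {F : ℕ → ℝ} {δ C B : ℝ} (hδ : 0 < δ) (hB : ∀ n : ℕ, 1 ≤ n → |F n| ≤ B * (n:ℝ) ^ (1/4:ℝ))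
    (h : ∀ (α : ℝ) (N : ℕ), 1 ≤ N →
      ‖∑ n ∈ Icc 1 N, ec α n * ((F n : ℝ) : ℂ)‖ ≤ C * (N:ℝ) ^ (1 - δ) ∧
      ‖∑ n ∈ Icc 1 N, ((ArithmeticFunction.moebius n : ℤ) : ℂ) * ec α n * ((F n : ℝ) : ℂ)‖ ≤ C * (N:ℝ) ^ (1 - δ) ∧
      ‖∑ n ∈ Icc 1 N, ((ArithmeticFunction.vonMangoldt n : ℝ) : ℂ) * ec α n * ((F n : ℝ) : ℂ)‖ ≤ C * (N:ℝ) ^ (1 - δ)) :
    ∃ δ' : ℝ, 0 < δ' ∧ ∃ C' : ℝ, ∀ N : ℕ, 1 ≤ N → ∀ (α : ℝ) (q a : ℕ), 1 ≤ q →
      ‖∑ n ∈ (Icc 1 N).filter (fun n => n ≡ a [MOD q]), ec α n * ((F n : ℝ) : ℂ)‖ ≤ C' * (N:ℝ) ^ (1 - δ') ∧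
      ‖∑ n ∈ (Icc 1 N).filter (fun n => n ≡ a [MOD q]), ((ArithmeticFunction.moebius n : ℤ) : ℂ) *
        ec α n * ((F n : ℝ) : ℂ)‖ ≤ C' * (N:ℝ) ^ (1 - δ') ∧
      ‖∑ n ∈ (Icc 1 N).filter (fun n => n ≡ a [MOD q]), ((ArithmeticFunction.vonMangoldt n : ℝ) : ℂ) *
        ec α n * ((F n : ℝ) : ℂ)‖ ≤ C' * (N:ℝ) ^ (1 - δ') ∧
      ‖∑ p ∈ ((Icc 1 N).filter Nat.Prime).filter (fun n => n ≡ a [MOD q]),
        ec α p * ((F p : ℝ) : ℂ)‖ ≤ C' * (N:ℝ) ^ (1 - δ') := by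
  have hB0 : 0 ≤ B := by
    have := hB 1 le_rfl
    rw [Nat.cast_one, Real.one_rpow, mul_one] at this
    exact (abs_nonneg _).trans this
  have hC0 : 0 ≤ C := by
    have := (h 0 1 le_rfl).1
    rw [Nat.cast_one, Real.one_rpow, mul_one] at this
    exact (norm_nonneg _).trans this
  have hlog : ∀ x : ℝ, 1 ≤ x → Real.log x ≤ 16 * x ^ (1/16:ℝ) := by
    intro x hx
    have h1 := Real.log_le_rpow_div (by linarith : (0:ℝ) ≤ x) (by norm_num : (0:ℝ) < 1/16)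
    linarith
  set δ' := min δ (1/8) with hδ'
  have hδ'1 : δ' ≤ δ := min_le_left _ _
  have hδ'2 : δ' ≤ 1/8 := min_le_right _ _
  have hδ'0 : 0 < δ' := lt_min hδ (by norm_num)
  have hpow : ∀ N : ℕ, 1 ≤ N → (N:ℝ) ^ (1 - δ) ≤ (N:ℝ) ^ (1 - δ') := by
    intro N hN
    exact Real.rpow_le_rpow_of_exponent_le (by exact_mod_cast hN) (by linarith)
  set v : ℕ → ℂ := fun n => if n.Prime then ((Real.log n : ℝ) : ℂ) * ((F n : ℝ) : ℂ) else 0 with hv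
  set M1 : ℝ := C + 32 * B with hM1
  have hM10 : 0 ≤ M1 := by positivity
  have hprime : ∀ (α : ℝ) (x : ℕ), 1 ≤ x → ‖∑ n ∈ Icc 1 x, ec α n * v n‖ ≤ M1 * (x:ℝ) ^ (1 - δ') := by
    intro α x hx
    have hx1 : (1:ℝ) ≤ x := by exact_mod_cast hx
    have hx0 : (0:ℝ) < x := by linarith
    have e1 : ∑ n ∈ Icc 1 x, ec α n * v n =
        ∑ n ∈ Icc 1 x, ((ArithmeticFunction.vonMangoldt n : ℝ) : ℂ) * ec α n * ((F n : ℝ) : ℂ) -
        ∑ n ∈ (Icc 1 x).filter (fun n => ¬ n.Prime), ((ArithmeticFunction.vonMangoldt n : ℝ) : ℂ) * ec α n *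
          ((F n : ℝ) : ℂ) := by
      rw [sum_filter, ← sum_sub_distrib]
      apply sum_congr rfl
      intro n _
      simp only [hv]
      by_cases hp : n.Prime
      · rw [if_pos hp, if_neg (not_not.2 hp), ArithmeticFunction.vonMangoldt_apply_prime hp]
        ring
      · rw [if_neg hp, if_pos hp]
        ring
    rw [e1]
    refine (norm_sub_le _ _).trans ?_
    have h1 := ((h α x hx).2.2).trans (mul_le_mul_of_nonneg_left (hpow x hx) hC0)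
    have h2 : ‖∑ n ∈ (Icc 1 x).filter (fun n => ¬ n.Prime), ((ArithmeticFunction.vonMangoldt n : ℝ) : ℂ) * ec α n *
          ((F n : ℝ) : ℂ)‖ ≤ (∑ n ∈ (Icc 1 x).filter (fun n => ¬ n.Prime), ArithmeticFunction.vonMangoldt n) *
            (B * (x:ℝ) ^ (1/4:ℝ)) := by
      refine (norm_sum_le _ _).trans ?_
      rw [sum_mul]
      apply sum_le_sum
      intro n hn
      rw [mem_filter, mem_Icc] at hn
      rw [norm_mul, norm_mul, norm_ec, mul_one, Complex.norm_real, Complex.norm_real, Real.norm_eq_abs,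
        Real.norm_eq_abs, abs_of_nonneg ArithmeticFunction.vonMangoldt_nonneg]
      apply mul_le_mul_of_nonneg_left _ ArithmeticFunction.vonMangoldt_nonneg
      refine (hB n hn.1.1).trans ?_
      apply mul_le_mul_of_nonneg_left _ hB0
      exact Real.rpow_le_rpow (Nat.cast_nonneg _) (by exact_mod_cast hn.1.2) (by norm_num)
    have h3 : ∑ n ∈ (Icc 1 x).filter (fun n => ¬ n.Prime), ArithmeticFunction.vonMangoldt n ≤
        2 * √(x:ℝ) * Real.log x := by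
      have h4 := Chebyshev.psi_sub_theta_le hx1
      rw [Chebyshev.psi_sub_theta_eq_sum_not_prime, Nat.floor_natCast] at h4
      have e3 : Ioc 0 x = Icc 1 x := by ext n; simp only [mem_Ioc, mem_Icc]; omega
      rw [e3] at h4
      exact h4
    have h4 : (∑ n ∈ (Icc 1 x).filter (fun n => ¬ n.Prime), ArithmeticFunction.vonMangoldt n) * (B * (x:ℝ) ^ (1/4:ℝ)) ≤
        32 * B * (x:ℝ) ^ (1 - δ') := by
      calc _ ≤ 2 * √(x:ℝ) * Real.log x * (B * (x:ℝ) ^ (1/4:ℝ)) :=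
            mul_le_mul_of_nonneg_right h3 (by positivity)
        _ = 2 * B * (√(x:ℝ) * (x:ℝ) ^ (1/4:ℝ)) * Real.log x := by ring
        _ ≤ 2 * B * (√(x:ℝ) * (x:ℝ) ^ (1/4:ℝ)) * (16 * (x:ℝ) ^ (1/16:ℝ)) :=
            mul_le_mul_of_nonneg_left (hlog x hx1) (by positivity)
        _ = 32 * B * ((x:ℝ) ^ (1/2:ℝ) * (x:ℝ) ^ (1/4:ℝ) * (x:ℝ) ^ (1/16:ℝ)) := by
            rw [← Real.sqrt_eq_rpow]; ring
        _ = 32 * B * (x:ℝ) ^ (13/16:ℝ) := by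
            rw [← Real.rpow_add hx0, ← Real.rpow_add hx0]; norm_num
        _ ≤ 32 * B * (x:ℝ) ^ (1 - δ') := by
            apply mul_le_mul_of_nonneg_left _ (by positivity)
            exact Real.rpow_le_rpow_of_exponent_le hx1 (by linarith)
    calc _ ≤ C * (x:ℝ) ^ (1 - δ') + 32 * B * (x:ℝ) ^ (1 - δ') := add_le_add h1 (h2.trans h4)
      _ = _ := by rw [hM1]; ring
  set L : ℝ := 1 / Real.log 2 with hL
  have hl2 : 0 < Real.log 2 := Real.log_pos (by norm_num)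
  have hL0 : 0 < L := by positivity
  set w : ℕ → ℝ := fun n => 1 / Real.log (max (n:ℝ) 2) with hw
  have hwpos : ∀ n : ℕ, 0 < Real.log (max (n:ℝ) 2) := by
    intro n
    exact Real.log_pos (lt_of_lt_of_le (by norm_num) (le_max_right _ _))
  have hw1 : w 1 = L := by
    simp only [hw, hL, Nat.cast_one]
    rw [max_eq_right (by norm_num)]
  have hwanti : ∀ n : ℕ, 1 ≤ n → w (n + 1) ≤ w n := by
    intro n _
    simp only [hw]
    apply one_div_le_one_div_of_le (hwpos n)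
    apply Real.log_le_log (lt_of_lt_of_le (by norm_num) (le_max_right _ _))
    apply max_le_max _ le_rfl
    push_cast; linarith
  have hsum : ∀ (α : ℝ) (N : ℕ), 1 ≤ N →
      ‖∑ n ∈ (Icc 1 N).filter Nat.Prime, ec α n * ((F n : ℝ) : ℂ)‖ ≤ L * M1 * (N:ℝ) ^ (1 - δ') := by
    intro α N hN
    have h1 := abel_le (g := fun n => ec α n * v n) hwanti
      (fun n _ => by simp only [hw]; exact (one_div_pos.2 (hwpos n)).le)
      (M := M1 * (N:ℝ) ^ (1 - δ')) hN (by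
        intro x hx hxN
        refine (hprime α x hx).trans ?_
        apply mul_le_mul_of_nonneg_left _ hM10
        exact Real.rpow_le_rpow (Nat.cast_nonneg _) (by exact_mod_cast hxN) (by linarith))
    rw [hw1] at h1
    refine le_trans (le_of_eq ?_) (h1.trans (le_of_eq (by ring)))
    congr 1
    rw [sum_filter]
    apply sum_congr rfl
    intro n _
    simp only [hv, hw]
    by_cases hp : n.Prime
    · rw [if_pos hp, if_pos hp]
      have h2 : (2:ℝ) ≤ n := by exact_mod_cast hp.two_le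
      rw [max_eq_left h2]
      have h3 : Real.log n ≠ 0 := (Real.log_pos (by linarith)).ne'
      have h5 : ((1 / Real.log (n:ℝ) : ℝ) : ℂ) * ((Real.log n : ℝ) : ℂ) = 1 := by
        rw [← Complex.ofReal_mul, one_div_mul_cancel h3, Complex.ofReal_one]
      linear_combination (-(ec α n * ((F n : ℝ) : ℂ))) * h5
    · rw [if_neg hp, if_neg hp]
      ring
  refine ⟨δ', hδ'0, C + L * M1, ?_⟩
  intro N hN α q a hq
  have hLM : 0 ≤ L * M1 := by positivity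
  have hN0 : 0 ≤ (N:ℝ) ^ (1 - δ') := by positivity
  have hle1 : C * (N:ℝ) ^ (1 - δ) ≤ (C + L * M1) * (N:ℝ) ^ (1 - δ') := by
    calc _ ≤ C * (N:ℝ) ^ (1 - δ') := mul_le_mul_of_nonneg_left (hpow N hN) hC0
      _ ≤ _ := mul_le_mul_of_nonneg_right (by linarith) hN0
  have hle2 : L * M1 * (N:ℝ) ^ (1 - δ') ≤ (C + L * M1) * (N:ℝ) ^ (1 - δ') :=
    mul_le_mul_of_nonneg_right (by linarith) hN0
  refine ⟨?_, ?_, ?_, ?_⟩
  · exact (class_bound hq a (Icc 1 N) (fun n => ((F n : ℝ) : ℂ)) (M := C * (N:ℝ) ^ (1 - δ))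
      (fun β => (h β N hN).1) α).trans hle1
  · refine le_trans ?_ hle1
    have h1 := class_bound hq a (Icc 1 N) (fun n => ((ArithmeticFunction.moebius n : ℤ) : ℂ) * ((F n : ℝ) : ℂ))
      (M := C * (N:ℝ) ^ (1 - δ)) (by
        intro β
        refine le_trans (le_of_eq ?_) (h β N hN).2.1
        congr 1
        apply sum_congr rfl; intro n _
        ring) α
    refine le_trans (le_of_eq ?_) h1
    congr 1
    apply sum_congr rfl; intro n _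
    ring
  · refine le_trans ?_ hle1
    have h1 := class_bound hq a (Icc 1 N) (fun n => ((ArithmeticFunction.vonMangoldt n : ℝ) : ℂ) * ((F n : ℝ) : ℂ))
      (M := C * (N:ℝ) ^ (1 - δ)) (by
        intro β
        refine le_trans (le_of_eq ?_) (h β N hN).2.2
        congr 1
        apply sum_congr rfl; intro n _
        ring) α
    refine le_trans (le_of_eq ?_) h1
    congr 1
    apply sum_congr rfl; intro n _
    ring
  · refine le_trans ?_ hle2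
    exact class_bound hq a ((Icc 1 N).filter Nat.Prime) (fun n => ((F n : ℝ) : ℂ))
      (M := L * M1 * (N:ℝ) ^ (1 - δ')) (fun β => hsum β N hN) α

variable {E : ℝ → ℝ} {a : ℕ → ℝ} {φ : ℝ} {w : ℝ → ℂ}

lemma ptE (ha : Bdw a) (ha0 : a 0 = 0) (hw : GW.Wt w) {κ₁ κ₂ : ℝ} (hS : SandW E a φ w κ₁ κ₂) {c : ℝ}
    (hc : 0 < c) : ∃ B : ℝ, 0 < B ∧ ∀ n : ℕ, 1 ≤ n → |E (c * √(n:ℝ))| ≤ B * (n:ℝ) ^ (1/8:ℝ) := by
  obtain ⟨K, hK, h⟩ := pt1 ha ha0 hw hS
  set T := ⌈(4/c)^2⌉₊ with hT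
  set f : ℕ → ℝ := fun n => |E (c * √(n:ℝ))| with hf
  set B1 := ∑ n ∈ range T, f n with hB1
  have hf0 : ∀ n, 0 ≤ f n := fun _ => abs_nonneg _
  have hB10 : 0 ≤ B1 := sum_nonneg fun _ _ => hf0 _
  refine ⟨K * c ^ (1/5:ℝ) + B1, by positivity, ?_⟩
  intro n hn
  have hn1 : (1:ℝ) ≤ n := by exact_mod_cast hn
  have hn0 : (0:ℝ) < n := by linarith
  have hs : 1 ≤ (n:ℝ) ^ (1/8:ℝ) := Real.one_le_rpow hn1 (by norm_num)
  have hKc : 0 ≤ K * c ^ (1/5:ℝ) := by positivity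
  rcases Nat.lt_or_ge n T with h1 | h1
  · have h2 : f n ≤ B1 := single_le_sum (f := f) (fun _ _ => hf0 _) (mem_range.2 h1)
    have h3 : B1 * 1 ≤ B1 * (n:ℝ) ^ (1/8:ℝ) := mul_le_mul_of_nonneg_left hs hB10
    have h4 : 0 ≤ K * c ^ (1/5:ℝ) * (n:ℝ) ^ (1/8:ℝ) := by positivity
    rw [add_mul]
    have h5 : |E (c * √(n:ℝ))| ≤ B1 := h2
    linarith
  · have h2 : (4/c)^2 ≤ n := (Nat.le_ceil _).trans (by exact_mod_cast h1)
    have h3 : 4 ≤ c * √(n:ℝ) := by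
      have h4 : 4/c ≤ √(n:ℝ) := by
        rw [← Real.sqrt_sq (by positivity : 0 ≤ 4/c)]
        exact Real.sqrt_le_sqrt h2
      rw [div_le_iff₀ hc] at h4
      linarith
    have h4 := h _ h3
    calc _ ≤ K * (c * √(n:ℝ)) ^ (1/5:ℝ) := h4
      _ = K * c ^ (1/5:ℝ) * (n:ℝ) ^ (1/10:ℝ) := by
          rw [Real.mul_rpow hc.le (by positivity), Real.sqrt_eq_rpow, ← Real.rpow_mul hn0.le]
          rw [show (1/2:ℝ) * (1/5) = 1/10 by norm_num]
          ring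
      _ ≤ K * c ^ (1/5:ℝ) * (n:ℝ) ^ (1/8:ℝ) := by
          apply mul_le_mul_of_nonneg_left _ hKc
          exact Real.rpow_le_rpow_of_exponent_le hn1 (by norm_num)
      _ ≤ _ := by
          apply mul_le_mul_of_nonneg_right _ (by positivity)
          linarith

/-- the general theorem on second moments -/
theorem gen2 (ha : Bdw a) (ha0 : a 0 = 0) (hw : GW.Wt w) {κ₁ κ₂ : ℝ} (hS : SandW E a φ w κ₁ κ₂)
    {c : ℝ} (hc : 0 < c) (k₁ k₂ l₁ l₂ u v : ℕ) (hk₁ : 0 < k₁) (hk₂ : 0 < k₂) (hu : 0 < u) (hv : 0 < v)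
    (huv : k₁ * u = k₂ * v) (hcop : Nat.Coprime u v) (F : ℕ → ℝ)
    (hF : ∀ n : ℕ, 1 ≤ n → F n = E (c * √((k₁ * n + l₁ : ℕ):ℝ)) * E (c * √((k₂ * n + l₂ : ℕ):ℝ)) - DI a u v) :
    ∃ δ' : ℝ, 0 < δ' ∧ ∃ C' : ℝ, ∀ N : ℕ, 1 ≤ N → ∀ (α : ℝ) (q b : ℕ), 1 ≤ q →
      ‖∑ n ∈ (Icc 1 N).filter (fun n => n ≡ b [MOD q]), ec α n * ((F n : ℝ) : ℂ)‖ ≤ C' * (N:ℝ) ^ (1 - δ') ∧
      ‖∑ n ∈ (Icc 1 N).filter (fun n => n ≡ b [MOD q]), ((ArithmeticFunction.moebius n : ℤ) : ℂ) *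
        ec α n * ((F n : ℝ) : ℂ)‖ ≤ C' * (N:ℝ) ^ (1 - δ') ∧
      ‖∑ n ∈ (Icc 1 N).filter (fun n => n ≡ b [MOD q]), ((ArithmeticFunction.vonMangoldt n : ℝ) : ℂ) *
        ec α n * ((F n : ℝ) : ℂ)‖ ≤ C' * (N:ℝ) ^ (1 - δ') ∧
      ‖∑ p ∈ ((Icc 1 N).filter Nat.Prime).filter (fun n => n ≡ b [MOD q]),
        ec α p * ((F p : ℝ) : ℂ)‖ ≤ C' * (N:ℝ) ^ (1 - δ') := by
  obtain ⟨A1, hA1, hw1⟩ := wv_exists
  obtain ⟨A2, hA2, hw2⟩ := wv_one
  have hmono : ∀ {g : ℕ → ℂ} {A A' : ℝ}, A ≤ A' → WV g A → WV g A' := by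
    intro g A A' hA h
    refine ⟨h.bd, ?_⟩
    intro N N' h1 h2 h3 θ h4 h5
    exact (h.es N N' h1 h2 h3 θ h4 h5).trans (mul_le_mul_of_nonneg_right hA (by positivity))
  obtain ⟨δ, hδ, hδ1, h⟩ := m2_total ha ha0 hw hS hc (A := max A1 A2) (lt_max_of_lt_left hA1)
  obtain ⟨C, hC, h⟩ := h k₁ k₂ l₁ l₂ u v hk₁ hk₂ hu hv huv hcop
  obtain ⟨B, hB, hpt⟩ := ptE ha ha0 hw hS hc
  have he : ∀ (α : ℝ) (n : ℕ), e (α * n) = ec α n := by
    intro α n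
    unfold e ec
    congr 1
    push_cast; ring
  have hE : ∀ k l : ℕ, 0 < k → ∀ n : ℕ, 1 ≤ n → |E (c * √((k * n + l : ℕ):ℝ))| ≤ B * (k + l) * (n:ℝ) ^ (1/8:ℝ) := by
    intro k l hk n hn
    have hn1 : (1:ℝ) ≤ n := by exact_mod_cast hn
    have hk1 : (1:ℝ) ≤ k := by exact_mod_cast hk
    have hl0 : (0:ℝ) ≤ l := Nat.cast_nonneg l
    have hx : 1 ≤ k * n + l := by have := Nat.mul_pos hk hn; omega
    refine (hpt _ hx).trans ?_
    rw [mul_assoc]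
    apply mul_le_mul_of_nonneg_left _ hB.le
    calc ((k * n + l : ℕ):ℝ) ^ (1/8:ℝ) ≤ ((k + l) * n : ℝ) ^ (1/8:ℝ) := by
          apply Real.rpow_le_rpow (by positivity) _ (by norm_num)
          push_cast
          nlinarith
      _ = (k + l : ℝ) ^ (1/8:ℝ) * (n:ℝ) ^ (1/8:ℝ) := Real.mul_rpow (by positivity) (by positivity)
      _ ≤ (k + l) * (n:ℝ) ^ (1/8:ℝ) := by
          apply mul_le_mul_of_nonneg_right _ (by positivity)
          calc (k + l : ℝ) ^ (1/8:ℝ) ≤ (k + l : ℝ) ^ (1:ℝ) :=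
                Real.rpow_le_rpow_of_exponent_le (by linarith) (by norm_num)
            _ = _ := Real.rpow_one _
  refine mainQ (δ := δ) (C := C) (B := (B * (k₁ + l₁)) * (B * (k₂ + l₂)) + |DI a u v|) hδ ?_ ?_
  · intro n hn
    rw [hF n hn]
    have hn1 : (1:ℝ) ≤ n := by exact_mod_cast hn
    have h1 := hE k₁ l₁ hk₁ n hn
    have h2 := hE k₂ l₂ hk₂ n hn
    have h3 : 1 ≤ (n:ℝ) ^ (1/4:ℝ) := Real.one_le_rpow hn1 (by norm_num)
    have h4 : (n:ℝ) ^ (1/8:ℝ) * (n:ℝ) ^ (1/8:ℝ) = (n:ℝ) ^ (1/4:ℝ) := by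
      rw [← Real.rpow_add (by linarith)]; norm_num
    calc _ ≤ |E (c * √((k₁ * n + l₁ : ℕ):ℝ)) * E (c * √((k₂ * n + l₂ : ℕ):ℝ))| + |DI a u v| := abs_sub _ _
      _ ≤ (B * (k₁ + l₁) * (n:ℝ) ^ (1/8:ℝ)) * (B * (k₂ + l₂) * (n:ℝ) ^ (1/8:ℝ)) + |DI a u v| * (n:ℝ) ^ (1/4:ℝ) := by
          apply add_le_add
          · rw [abs_mul]
            exact mul_le_mul h1 h2 (abs_nonneg _) (by positivity)
          · exact le_mul_of_one_le_right (abs_nonneg _) h3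
      _ = _ := by rw [← h4]; ring
  · intro α N hN
    have hsub : ∀ g : ℕ → ℂ, WV g (max A1 A2) → ‖∑ n ∈ Icc 1 N, g n * ((F n : ℝ) : ℂ)‖ ≤ C * (N:ℝ) ^ (1 - δ) := by
      intro g hg
      refine le_trans (le_of_eq ?_) (h g hg N hN)
      congr 1
      apply sum_congr rfl; intro n hn
      rw [mem_Icc] at hn
      rw [hF n hn.1]
    refine ⟨?_, ?_, ?_⟩
    · have h1 := hsub _ (hmono (le_max_right _ _) (hw2 α))
      simp only [he] at h1
      exact h1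
    · have h1 := hsub _ (hmono (le_max_left _ _) (hw1 α).2)
      simp only [he] at h1
      push_cast at h1 ⊢
      exact h1
    · have h1 := hsub _ (hmono (le_max_left _ _) (hw1 α).1)
      simp only [he] at h1
      exact h1

end Pool.Agent.Q263.PS
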