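import Mathlib
import Pool.Agent.Q263.PS.M2d
import Pool.Agent.Q263.PS.Circ
import Pool.Agent.H383.CircD

/-! Second moments for the circle problem. -/

set_option autoImplicit false

open Finset
open Pool.Agent.H383 Pool.Agent.H383.Gauss Pool.Agent.H383.Circ Pool.Agent.H452R2.Win
open Pool.Agent.H425R3.JL

namespace Pool.Agent.Q263.PS

lemma ag_term (r : ℕ → ℕ) (hr : ∀ m : ℕ, r m = Nat.card {p : ℤ × ℤ // p.1 ^ 2 + p.2 ^ 2 = (m : ℤ)})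
    (u v h : ℕ) :
    ag (u * h) * ag (v * h) = (r (u * h) : ℝ) * r (v * h) / ((u : ℝ) * v * (h : ℝ) ^ 2) ^ (3 / 4 : ℝ) / Real.pi ^ 2 := by
  have hag : ∀ m : ℕ, ag m = (r m : ℝ) / Real.pi * (m:ℝ) ^ (-(3/4):ℝ) := by
    intro m
    unfold ag
    rw [rA_card, ← hr m, Real.sqrt_eq_rpow, ← Real.rpow_mul (Nat.cast_nonneg m)]
    norm_num
  rw [hag, hag]
  have h1 : ((u * h : ℕ):ℝ) ^ (-(3/4):ℝ) * ((v * h : ℕ):ℝ) ^ (-(3/4):ℝ) = (((u : ℝ) * v * (h : ℝ) ^ 2) ^ (3 / 4 : ℝ))⁻¹ := by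
    rw [← Real.mul_rpow (by positivity) (by positivity), ← Real.rpow_neg (by positivity)]
    congr 1
    push_cast; ring
  have h2 : (r (u * h) : ℝ) / Real.pi * ((u * h : ℕ):ℝ) ^ (-(3/4):ℝ) * ((r (v * h) : ℝ) / Real.pi * ((v * h : ℕ):ℝ) ^ (-(3/4):ℝ)) =
      (r (u * h) : ℝ) * r (v * h) / Real.pi^2 * (((u * h : ℕ):ℝ) ^ (-(3/4):ℝ) * ((v * h : ℕ):ℝ) ^ (-(3/4):ℝ)) := by
    rw [pow_two]
    field_simp
  rw [h2, h1]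
  ring

/-- second moments for the circle problem -/
theorem circ_m2 (r : ℕ → ℕ) (hr : ∀ m : ℕ, r m = Nat.card {p : ℤ × ℤ // p.1 ^ 2 + p.2 ^ 2 = (m : ℤ)})
    {κ : ℝ} (hκ : 0 < κ) (k₁ k₂ l₁ l₂ u v : ℕ) (hk₁ : 0 < k₁) (hk₂ : 0 < k₂)
    (huv : k₁ * u = k₂ * v) (hcop : Nat.Coprime u v) :
    Summable (fun h : ℕ => (r (u * h) : ℝ) * r (v * h) / ((u : ℝ) * v * (h : ℝ) ^ 2) ^ (3 / 4 : ℝ)) ∧
    ∃ δ' : ℝ, 0 < δ' ∧ ∃ C' : ℝ, ∀ N : ℕ, 1 ≤ N → ∀ (α : ℝ) (q b : ℕ), 1 ≤ q → ∀ F : ℕ → ℝ,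
      (∀ n : ℕ, F n = Ec (κ * (k₁ * n + l₁)) * Ec (κ * (k₂ * n + l₂)) -
        (∑' h : ℕ, (r (u * h) : ℝ) * r (v * h) / ((u : ℝ) * v * (h : ℝ) ^ 2) ^ (3 / 4 : ℝ)) / (2 * Real.pi ^ 2)) →
      ‖∑ n ∈ (Icc 1 N).filter (fun n => n ≡ b [MOD q]), ec α n * ((F n : ℝ) : ℂ)‖ ≤ C' * (N:ℝ) ^ (1 - δ') ∧
      ‖∑ n ∈ (Icc 1 N).filter (fun n => n ≡ b [MOD q]), ((ArithmeticFunction.moebius n : ℤ) : ℂ) *
        ec α n * ((F n : ℝ) : ℂ)‖ ≤ C' * (N:ℝ) ^ (1 - δ') ∧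
      ‖∑ n ∈ (Icc 1 N).filter (fun n => n ≡ b [MOD q]), ((ArithmeticFunction.vonMangoldt n : ℝ) : ℂ) *
        ec α n * ((F n : ℝ) : ℂ)‖ ≤ C' * (N:ℝ) ^ (1 - δ') ∧
      ‖∑ p ∈ ((Icc 1 N).filter Nat.Prime).filter (fun n => n ≡ b [MOD q]),
        ec α p * ((F p : ℝ) : ℂ)‖ ≤ C' * (N:ℝ) ^ (1 - δ') := by
  have huv0 : 0 < u ∧ 0 < v := by
    rcases Nat.eq_zero_or_pos u with rfl | hu
    · rw [mul_zero] at huv
      have hv : v = 0 := by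
        rcases Nat.mul_eq_zero.1 huv.symm with h | h
        · omega
        · exact h
      rw [hv] at hcop
      simp at hcop
    · refine ⟨hu, ?_⟩
      rcases Nat.eq_zero_or_pos v with rfl | hv
      · rw [mul_zero] at huv
        rcases Nat.mul_eq_zero.1 huv with h | h <;> omega
      · exact hv
  obtain ⟨hu, hv⟩ := huv0
  have hs := diag_summable ag_Bdw ag_zero hu hv
  have hterm := ag_term r hr u v
  have hpi : Real.pi ^ 2 ≠ 0 := by positivity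
  have hs2 : Summable (fun h : ℕ => (r (u * h) : ℝ) * r (v * h) / ((u : ℝ) * v * (h : ℝ) ^ 2) ^ (3 / 4 : ℝ)) := by
    have h1 := hs.mul_right (Real.pi ^ 2)
    refine h1.congr ?_
    intro h
    rw [hterm h]
    field_simp
  refine ⟨hs2, ?_⟩
  have hDI : DI ag u v = (∑' h : ℕ, (r (u * h) : ℝ) * r (v * h) / ((u : ℝ) * v * (h : ℝ) ^ 2) ^ (3 / 4 : ℝ)) / (2 * Real.pi ^ 2) := by
    unfold DI
    rw [tsum_congr hterm, tsum_div_const]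
    ring
  obtain ⟨δ, hδ, C, h⟩ := gen2 (E := En) ag_Bdw ag_zero wg_Wt En_SandW (c := √κ) (Real.sqrt_pos.2 hκ)
    k₁ k₂ l₁ l₂ u v hk₁ hk₂ hu hv huv hcop
    (fun n => En (√κ * √((k₁ * n + l₁ : ℕ):ℝ)) * En (√κ * √((k₂ * n + l₂ : ℕ):ℝ)) - DI ag u v) (fun _ _ => rfl)
  refine ⟨δ, hδ, C, ?_⟩
  intro N hN α q b hq F hF
  have hFF : F = fun n => En (√κ * √((k₁ * n + l₁ : ℕ):ℝ)) * En (√κ * √((k₂ * n + l₂ : ℕ):ℝ)) - DI ag u v := by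
    funext n
    rw [hF n, hDI]
    have e1 : ∀ x : ℕ, En (√κ * √(x:ℝ)) = Ec (κ * x) := by
      intro x
      rw [← Real.sqrt_mul hκ.le, Ec_eq (by positivity)]
    rw [e1, e1]
    push_cast
    rfl
  rw [hFF]
  exact h N hN α q b hq

end Pool.Agent.Q263.PS
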